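import Mathlib
import Pool.Agent.Helper35.PX.Finite

/-!
MP_bec853_al, asymptotic number of potentially positive elements: definitions (project AP).
-/

set_option autoImplicit false

namespace Pool.Agent.Helper86.AP

open FreeGroup Pool.Agent.Helper35.PP Pool.Agent.Helper35.PX
open scoped ENNReal

section words

variable {β : Type}

/-- products of `k` words of `M` -/
def Mp (M : Set (List β)) : ℕ → Set (List β)
  | 0 => {[]}
  | k + 1 => app M (Mp M k)

/-- words which are periodic to the left of a suffix `S0`, where `S0` is a product of six words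
of `M` -/
def LE (M : Set (List β)) : Set (List β) :=
  {t | ∃ S0 ∈ Mp M 6, S0 <:+ t ∧ ∃ q : ℕ, 1 ≤ q ∧
    ∀ h, h + S0.length < t.length → t[h]? = t[h + q]?}

/-- `a` is periodic on the positions in `[E, R)` and the rest is a product of two words of `M` -/
def Per (M : Set (List β)) (a : List β) (E : ℕ) : Prop :=
  ∃ R q : ℕ, E ≤ R ∧ R ≤ a.length ∧ 1 ≤ q ∧
    (∀ h, E ≤ h → h < R → h + q < a.length ∧ a[h]? = a[h + q]?) ∧ a.drop R ∈ Mp M 2

/-- admissible quadruples: `p` is a prefix of `A` and `q` is a prefix of `D`; apart from the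
prefixes, the two words consist of a common part `c`, of factors of other parts, and of the low
entropy parts `t`, `t'` -/
def ADM (M : Set (List β)) (A p D q : List β) : Prop :=
  ∃ f1 f2 f3 f4 c t t' : List β, A = p ++ (f2 ++ c ++ f1) ++ t ∧
    D = q ++ (f4 ++ c ++ f3) ++ t' ∧ t ∈ LE M ∧ t' ∈ LE M ∧
    f1 <:+: t' ∧ f2 <:+: q ∧ f3 <:+: t ∧ f4 <:+: p

/-- Pairing structure on the `2 (m + 1)` ends. The end `(j, true)` is the `a`-end of the letter
`j`, the end `(j, false)` is its `d`-end; `pi e` is the other end of the block of `e`. The word at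
`e` is `P e ++ C e ++ X e`: `P e` is visible, `C e` cancels against the word at `pi e`, and `X e`
cancels against the middle of the block. -/
structure PS (M : Set (List β)) (m : ℕ) (a d : List β) where
  P : Fin (m + 1) × Bool → List β
  C : Fin (m + 1) × Bool → List β
  X : Fin (m + 1) × Bool → List β
  pi : Fin (m + 1) × Bool → Fin (m + 1) × Bool
  invol : ∀ e, pi (pi e) = e
  nofix : ∀ e, pi e ≠ e
  dec : ∀ e, (if e.2 then a else d) = P e ++ C e ++ X e
  cc : ∀ e, C (pi e) = C e
  hx : ∀ e, X e ∈ M
  nd : ∀ e, (pi e).2 = e.2 → C e ≠ [] → (P e).length ≠ (P (pi e)).length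

end words

section letters

variable {α : Type}

/-- the word with letters `(i, s k)` followed by the blocks `b k`, `k = 0, ..., m` -/
def cw (i : α) (m : ℕ) (s : Fin (m + 1) → Bool) (b : Fin (m + 1) → List (α × Bool)) :
    List (α × Bool) :=
  (List.ofFn fun k => (i, s k) :: b k).flatten

/-- a letter `(i, e.1)` with the lengths `e.2.1` (of the part of the first dictionary word used at
this letter) and `e.2.2.1` (second dictionary word), and the following word `e.2.2.2` -/
abbrev Rec (α : Type) := Bool × ℕ × ℕ × List (α × Bool)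

/-- dictionary word to the right of the letter -/
def rt (A D : List (α × Bool)) (e : Rec α) : List (α × Bool) :=
  if e.1 then A.take e.2.1 else D.take e.2.2.1

/-- dictionary word to the left of the letter -/
def lt (A D : List (α × Bool)) (e : Rec α) : List (α × Bool) :=
  FreeGroup.invRev (if e.1 then D.take e.2.2.1 else A.take e.2.1)

/-- the word of a list of records -/
def lin (i : α) (A D : List (α × Bool)) : List (Rec α) → List (α × Bool)
  | [] => []
  | e :: l => lt A D e ++ ((i, e.1) :: (rt A D e ++ e.2.2.2)) ++ lin i A D l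

/-- the cyclic word of a nonempty list of records, cut before the first letter -/
def cyc (i : α) (A D : List (α × Bool)) (e : Rec α) (l : List (Rec α)) : List (α × Bool) :=
  ((i, e.1) :: (rt A D e ++ e.2.2.2)) ++ lin i A D l ++ lt A D e

/-- the value `x` is taken, and `y = 0` or `y` is taken at another place -/
def Mark (f : Rec α → ℕ) (L : List (Rec α)) (x y : ℕ) : Prop :=
  ∃ j0 : Fin L.length, f (L.get j0) = x ∧ (y = 0 ∨ ∃ j1 : Fin L.length, j1 ≠ j0 ∧ f (L.get j1) = y)

variable [DecidableEq α]

/-- the transformed blocks are words without bad pairs -/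
def Tr [Fintype α] (i : α) (A B : Finset (α × Bool)) (a d : FreeGroup α) (m : ℕ)
    (s : Fin (m + 1) → Bool) (b : Fin (m + 1) → List (α × Bool)) : Prop :=
  ∀ k, ((if s k then a else d)⁻¹ * FreeGroup.mk (b k) * (if s (k + 1) then d else a)).toWord ∈
    Lang (Zi i) A B

/-- the words without bad pairs and their inverses -/
def MI [Fintype α] (i : α) (A B : Finset (α × Bool)) : Set (List (α × Bool)) :=
  {w | w ∈ Lang (Zi i) A B ∨ FreeGroup.invRev w ∈ Lang (Zi i) A B}

/-- the words of `S` without bad pairs -/
def TS (i : α) (A B : Finset (α × Bool)) (S : Set (List (α × Bool))) : Set (List (α × Bool)) :=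
  {v | v ∈ S ∧ NB i (bd A B) v}

/-- the admissible quadruples of reduced words without the letter `i` -/
def ADMS [Fintype α] (i : α) (M : Set (List (α × Bool))) :
    Set (List (α × Bool) × List (α × Bool) × List (α × Bool) × List (α × Bool)) :=
  {t | t.1 ∈ Zr (Zi i) ∧ t.2.2.1 ∈ Zr (Zi i) ∧ ADM M t.1 t.2.1 t.2.2.1 t.2.2.2}

/-- weight of a set of quadruples -/
noncomputable def WQ (z : ℝ≥0∞)
    (S : Set (List (α × Bool) × List (α × Bool) × List (α × Bool) × List (α × Bool))) : ℝ≥0∞ :=
  ∑' t : S, z ^ (t.1.1.length + t.1.2.1.length + t.1.2.2.1.length + t.1.2.2.2.length)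

/-- the words with an admissible dictionary -/
def FF [Fintype α] (i : α) (T M : Set (List (α × Bool))) : Set (List (α × Bool)) :=
  {c | ∃ A p D q, (A, p, D, q) ∈ ADMS i M ∧ ∃ (e : Rec α) (l : List (Rec α)),
    (∀ r ∈ e :: l, 0 < r.2.1 + r.2.2.1 ∧ r.2.1 ≤ A.length ∧ r.2.2.1 ≤ D.length ∧ r.2.2.2 ∈ T) ∧
    Mark (fun r => r.2.1) (e :: l) A.length p.length ∧
    Mark (fun r => r.2.2.1) (e :: l) D.length q.length ∧ c = cyc i A D e l}

/-- the data of a class of the cover -/
structure Cls [Fintype α] (i : α) (S : Set (List (α × Bool))) (A B : Finset (α × Bool)) : Prop where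
  fc : FactorClosed S
  red : ∀ v ∈ S, v.IsChain (fun x y => y ≠ nv x)
  sides : Sides (Zi i) A B
  bound : W (ENNReal.ofReal (z0 α)) (TS i A B S) ≤ ENNReal.ofReal (70 * Fintype.card α)

/-- some letter occurs exactly once -/
def Once (c : List (α × Bool)) : Prop := ∃ i : α, c.countP (fun x => x.1 = i) = 1

/-- potentially positive -/
def PPos (u : FreeGroup α) : Prop :=
  ∃ f : FreeGroup α ≃* FreeGroup α, ∀ x ∈ (f u).toWord, x.2 = true

/-- primitive: the image of a basis element under an automorphism -/
def Prim (u : FreeGroup α) : Prop :=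
  ∃ (f : FreeGroup α ≃* FreeGroup α) (i : α), u = f (FreeGroup.of i)

end letters

end Pool.Agent.Helper86.AP
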