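import Mathlib
import Pool.Agent.Helper86.AP.Defs

/-!
# Project AP (MP_bec853_al): p_r(n) ~ c_r n (2r-3)^n for r >= 100

Statements of the packets, with proofs in the doc-strings. All packets are independent: where a
statement needs another one, that one is a hypothesis (or is simply not needed). Definitions:
`Pool/Agent/Helper86/AP/Defs.lean`. Deliver `Pool/Agent/<Seat>/AP/XXX.lean` with `theorem t : S_XXX`
(import only Goals, plus existing files of Helper35 and others named in the doc-strings).

Overview. Fix a letter `i`; `Z` = the other letters; `N = Lang (Zi i) A B` (reduced words over `Z`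
without a bad pair) is a thin language. Every block `b` of the cyclic word between two letters
`i^s`, `i^s'` is `X b' Y^-1` with `b'` in `N` and `X, Y` in `{a, d}` (`S_SEC`). After cancellation
`X = p c x`, `Y = q c z`, `b' = x^-1 v z`, `b = p v q^-1`, and `c = []` or `v = []` (`S_TRI`), which
gives a pairing structure `PS` (`S_LNK`). If the word has at least two letters `i`, the part of `a`
(or `d`) which is visible only once consists of a part common with the other word and a part of low
entropy (`S_SIDE`, `S_ST`). Hence the generating function of these words, started at a letter where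
the dictionary is used, is finite at `z0 = 1 / (2 r - 3)` (`S_GENB`), and there are only
`o(n (2r-3)^n)` such words. The words with exactly one letter `i` are primitive, and are counted
exactly.
-/

set_option autoImplicit false

namespace Pool.Agent.Helper86.AP

open FreeGroup Pool.Agent.Helper35.PP Pool.Agent.Helper35.PX
open scoped ENNReal

/-! ## Words -/

/-- **SUBM** (0.7 h). A factor closed language with finite weight at `z` has finite weight at a
larger point.
Proof. Let `A n = (S ∩ {w | w.length = n}).ncard` (finite since `β` is finite,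
`List.finite_length_eq`). Factor closed gives `A (n + m) ≤ A n * A m` (`w ↦ (w.take n, w.drop n)` is
injective into the product). `W z S = ∑' n, A n * z ^ n` (or just `A n * z ^ n ≤ W z S`, lemma
`Pool.Agent.Helper35.PP.ncard_mul_pow_le`, and summability of `A n z^n`), so `A n * z ^ n → 0` and
there is `k ≥ 1` with `A k * z ^ k < 1`; choose `z' > z` with `A k * z' ^ k < 1` (continuity). Then
`A (q k + r) ≤ (A k) ^ q * A r` and `∑ n, A n z' ^ n ≤ ∑ r < k, A r z' ^ r * ∑ q, (A k z' ^ k) ^ q`
is finite. -/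
def S_SUBM : Prop :=
  ∀ (β : Type) [Finite β] (S : Set (List β)) (z : ℝ), 0 < z → FactorClosed S →
    W (ENNReal.ofReal z) S < ⊤ → ∃ z' : ℝ, z < z' ∧ W (ENNReal.ofReal z') S < ⊤

/-- **WLE** (0.7 h). The low entropy words have finite weight.
Proof. A word `t ∈ LE M` is determined by `S0`, `t.length` and `q`: if `t ≠ S0` then (take
`h = t.length - S0.length - 1`) `t[h + q]?` is not `none`, so `q ≤ S0.length`, and the letters
`t[h]`, `h = t.length - S0.length - 1, ..., 0`, are determined one after the other. So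
`t ↦ (S0, length, q)` (with `q = 1` if `t = S0`) is injective, `q ≤ length + 1`, and
`W z (LE M) ≤ ∑ S0 ∈ Mp M 6, ∑ n ≥ |S0|, (n + 2) z ^ n ≤ C ∑ S0 ∈ Mp M 6, z' ^ |S0| ≤ C (W z' M) ^ 6`
(`W_app_le`), because `(n + 2) z ^ n ≤ C' y ^ n` for a `y` between `z` and `z'`, and
`∑ n ≥ l, y ^ n = y ^ l / (1 - y)`. -/
def S_WLE : Prop :=
  ∀ (β : Type) (M : Set (List β)) (z z' : ℝ), 0 < z → z < z' → z' < 1 →
    W (ENNReal.ofReal z') M < ⊤ → W (ENNReal.ofReal z) (LE M) < ⊤

/-- **ADMW** (1 h). The admissible quadruples have finite weight.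
Proof. By definition of `ADM` the quadruple `(A, p, D, q)` is determined by
`(p, f4, q, f2, c, t, f3, t', f1)` with `p, q, c ∈ Zr (Zi i)` (factors of `A` or `D`),
`t, t' ∈ LE M`, `f4 <:+: p`, `f2 <:+: q`, `f3 <:+: t`, `f1 <:+: t'`, and the exponent
`|A| + |p| + |D| + |q|` is `2|p| + |f4| + 2|q| + |f2| + 2|c| + |t| + |f3| + |t'| + |f1|`. For every
word `u` the sum of `z ^ |f|` over the infixes `f` of `u` is at most `(|u| + 1) / (1 - z)` (an infix
is determined by its start, at most `|u| + 1` of them, and its length). So the weight is at most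
`(1 - z)^(-4) (∑_p (|p| + 1) z^(2|p|))^2 (∑_c z^(2|c|)) (∑_t (|t| + 1) z^|t|)^2`, and
`(n + 1) z ^ n ≤ C z' ^ n`, `∑_{p ∈ Zr} z'^(2|p|) < ⊤` because `(2 r - 3) z'^2 < 1` (lemma
`Pool.Agent.Helper35.PP.W_Zr` with `Φ = 1 / (1 - (2 r - 3) z'^2)`, as in
`Pool.Agent.Helper35.PX.W_noi_lt_top`). -/
def S_ADMW : Prop :=
  ∀ (α : Type) [Fintype α] [DecidableEq α] (i : α) (M : Set (List (α × Bool))) (z z' : ℝ),
    2 ≤ Fintype.card α → 0 < z → z < z' → z' < 1 → (2 * (Fintype.card α : ℝ) - 3) * z' ^ 2 < 1 →
    W (ENNReal.ofReal z') (LE M) < ⊤ → WQ (ENNReal.ofReal z) (ADMS i M) < ⊤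

/-- **PA** (0.4 h). Case (i): the word `a` is paired with itself.
Proof. `R = |p1| + |c|`, `q = |p2| - |p1|`. For `l ≤ h < R`, `a[h]? = c[h - |p1|]? = a[h + q]?` and
`h + q < |p2| + |c| ≤ |a|`; `a.drop R = x1 ∈ M`, and `M ⊆ Mp M 2` because `[] ∈ M` (factor of
`x1`). -/
def S_PA : Prop :=
  ∀ (β : Type) (M : Set (List β)) (a p1 p2 c x1 x2 : List β) (l : ℕ), FactorClosed M →
    a = p1 ++ c ++ x1 → a = p2 ++ c ++ x2 → x1 ∈ M → p1.length < p2.length →
    p1.length ≤ l → l ≤ p1.length + c.length → Per M a l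

/-- **PB** (0.8 h). Case (ii): two pairings with different offsets.
Proof. Put `r1 = |p1| + |c1|`, `r2 = |p2| + |c2|`, `O1 = |q1| - |p1|`, `O2 = |q2| - |p2|` (integers),
`q = O1 - O2 ≥ 1`, `R = max l (min r1 (r2 - q))`. For `l ≤ h < R`: `h < r1` and `h + q < r2`, so
`a[h] = d[h + O1] = d[(h + q) + O2] = a[h + q]` (first equality: the common part `c1`, because
`|p1| ≤ h < r1`; last one: the common part `c2`, because `|p2| ≤ h + q < r2`); `h + q < |a|`.
`a.drop R = a[R, r1) ++ x1`. If `R < r1` then for `R ≤ h < r1` we have `h ≥ r2 - q`, so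
`a[h] = d[h + O1]` with `h + O1 ≥ r2 + O2 = |q2| + |c2|`: the part `a[R, r1)` is a factor of `z2`.
So both pieces are in `M` (`M` is factor closed). -/
def S_PB : Prop :=
  ∀ (β : Type) (M : Set (List β)) (a d p1 c1 x1 q1 z1 p2 c2 x2 q2 z2 : List β) (l : ℕ),
    FactorClosed M → a = p1 ++ c1 ++ x1 → d = q1 ++ c1 ++ z1 → a = p2 ++ c2 ++ x2 →
    d = q2 ++ c2 ++ z2 → x1 ∈ M → z2 ∈ M → q2.length + p1.length < q1.length + p2.length →
    p1.length ≤ l → p2.length ≤ l → l ≤ p1.length + c1.length → l ≤ p2.length + c2.length →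
    Per M a l

/-- **PC** (1 h). Case (iii). Here `a = p1 c1 x1`, `d = q1 c1 z1` is one pairing (offset
`O = |q1| - |p1|`) and `a = p0 c0 x0`, `d = q0 c0 z0` is another one (offset `O0 = |q0| - |p0|`).
Proof. `r1 = |p1| + |c1|`, `l1 = |p0|`, `E = max l (min (|q0| - O) (min r1 l1))` (integers).
(a) for `l ≤ h < E`: `h < r1` and `h < |q0| - O`, `a[h] = d[h + O]` by the first pairing.
(b) If `E = l1` nothing more is needed. If `E = r1` then `Per` holds with `R = E`, `q = 1`,
`a.drop r1 = x1`. Otherwise `E < min r1 l1` and `E ≥ |q0| - O`; put `q = O - O0`; it is `≥ 1`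
because `|q0| - O ≤ E < l1`, i.e. `O0 < O`. Put `rD = |q0| + |c0|`, `R = max E (min r1 (rD - O))`.
For `E ≤ h < R`: `|p1| ≤ h < r1`, so `a[h] = d[h + O]`, and `|q0| ≤ h + O < rD`, so
`d[h + O] = c0[h + O - |q0|] = a[h + O - |q0| + |p0|] = a[h + q]`, with `h + q < |a|`.
`a.drop R = a[R, r1) ++ x1`; if `R < r1`, then for `R ≤ h < r1` we have `h + O ≥ rD`, so `a[R, r1)`
is a factor of `z0`. -/
def S_PC : Prop :=
  ∀ (β : Type) (M : Set (List β)) (a d p1 c1 x1 q1 z1 p0 c0 x0 q0 z0 : List β) (l : ℕ),
    FactorClosed M → a = p1 ++ c1 ++ x1 → d = q1 ++ c1 ++ z1 → a = p0 ++ c0 ++ x0 →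
    d = q0 ++ c0 ++ z0 → x1 ∈ M → z0 ∈ M → p1.length ≤ l → l ≤ p0.length →
    l ≤ p1.length + c1.length →
    ∃ E, l ≤ E ∧ E ≤ p0.length ∧ (E = p0.length ∨ Per M a E) ∧
      (E = l ∨ (E + q1.length ≤ q0.length + p1.length ∧ E ≤ p1.length + c1.length ∧
        ∀ h, l ≤ h → h < E → a[h]? = d[h + q1.length - p1.length]?))

/-- **LEL** (1.2 h). From periodicity to low entropy: the part of `a` between `E` and `l1`.
Proof. Let `u1 u2 = a.drop R` with `u1, u2 ∈ M`, `K = max E (min R (l1 - q))` (`l1 - q` may be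
negative: then `K = E`), and `S0 = a[K, l1)`, a suffix of `t = a[E, l1)`. For `E ≤ h < K` we have
`h < R`, `h + q < l1`, so `a[h] = a[h + q]`: this is the condition of `LE` (if `K = E` it is empty).
`S0 ∈ Mp M 6`: every factor of a word of `Mp M k` is in `Mp M k` (`k ≥ 1`; `M` is factor closed) and
`Mp M k ⊆ Mp M (k + 1)`, `app (Mp M j) (Mp M k) ⊆ Mp M (j + k)`. If `R ≤ l1 - q`, `K = max E R` and
`S0` is a factor of `a.drop R`. Otherwise `|S0| ≤ q` and `S0 = a[K, R') ++ a[R', l1)` with
`R' = max K (min R l1)`; the second part is a factor of `a.drop R`; the first part is an interval of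
length `≤ q` of positions in `[E, R)`; for such `h` let `k(h)` be the least `k` with
`h + k q ≥ R`; then `a[h] = a[h + k q]` (iterate the periodicity) and `h + k q ∈ [R, R + q)`. On an
interval of length `≤ q` the function `k` takes at most two values, so `a[K, R')` is a product of
two factors of `a.drop R`, hence in `Mp M 4`. -/
def S_LEL : Prop :=
  ∀ (β : Type) (M : Set (List β)) (a : List β) (E l1 : ℕ), FactorClosed M → Per M a E → E ≤ l1 →
    l1 ≤ a.length → (a.take l1).drop E ∈ LE M

/-- **SIDE** (1.5 h). One side of the structure theorem. Uses `S_PA`, `S_PB`, `S_PC`.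
Notation: `P j = |S.P (j, true)|`, `l1 = P j0`, `l2 = P j1`, for an end `e`: `r e = |P e| + |C e|`,
`O e = |P (pi e)| - |P e|` (integer). The equality `dec` at `e` and at `pi e` together with
`C (pi e) = C e` is a pairing between the words at `e` and at `pi e`.
Proof. Let `e1 = (k, true)`, `k ≠ j0`, have minimal `r e1` among the `(j, true)`, `j ≠ j0`.
(0) If `r e1 ≤ l2`: `E = l2`, `Per` with `R = l2`, since `a.drop l2` is a suffix of `X e1`. From now
on `l2 < r e` for every `e = (j, true)`, `j ≠ j0`; also `|P e| ≤ l2`, so `C e ≠ []`.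
(i) Some `e = (j, true)`, `j ≠ j0`, has `(pi e).2 = true`. By `nd`, `|P e| ≠ |P (pi e)|`. If
`|P e| < |P (pi e)|` apply `S_PA` to `e`, `pi e` (`a = P e ++ C e ++ X e = P (pi e) ++ C e ++
X (pi e)`) with `l = l2`: `Per M a l2`, `E = l2`. If `|P (pi e)| < |P e| ≤ l2 ≤ l1` then `pi e` is
not `(j0, true)`, and we apply the same to `pi e` instead of `e`.
(ii) All `(j, true)`, `j ≠ j0`, have partner with second component `false`, and there are two of
them, `e` and `f`, with `O e ≠ O f`; say `O f < O e`; apply `S_PB` with `l = l2` (first pairing: `e`,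
second: `f`): `E = l2`.
(iii) All `(j, true)`, `j ≠ j0`, have partner with second component `false` and the same offset `O`.
Then `D = pi (j0, true)` has `D.2 = false`: otherwise `D = (j, true)` with `j ≠ j0` (`nofix`) and
`pi D = (j0, true)` contradicts the assumption on `D`. Apply `S_PC` with `l = l2`, first pairing
`e1`, second pairing `(j0, true)` (so `p0 = P (j0, true)`, `q0 = P D`, `z0 = X D`). -/
def S_SIDE : Prop :=
  ∀ (β : Type) (M : Set (List β)) (m : ℕ) (a d : List β) (S : PS M m a d) (j0 j1 : Fin (m + 1)),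
    FactorClosed M → j1 ≠ j0 → (∀ j, (S.P (j, true)).length ≤ (S.P (j0, true)).length) →
    (∀ j, j ≠ j0 → (S.P (j, true)).length ≤ (S.P (j1, true)).length) →
    S_PA → S_PB → S_PC →
    ∃ E : ℕ, (S.P (j1, true)).length ≤ E ∧ E ≤ (S.P (j0, true)).length ∧
      (E = (S.P (j0, true)).length ∨ Per M a E) ∧
      (E = (S.P (j1, true)).length ∨
        ((S.pi (j0, true)).2 = false ∧ ∃ O : ℤ,
          (∀ j, j ≠ j0 → (S.pi (j, true)).2 = false ∧
            ((S.P (S.pi (j, true))).length : ℤ) = (S.P (j, true)).length + O) ∧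
          (E : ℤ) + O ≤ (S.P (S.pi (j0, true))).length ∧
          ∀ h : ℕ, (S.P (j1, true)).length ≤ h → h < E →
            0 ≤ (h : ℤ) + O ∧ a[h]? = d[((h : ℤ) + O).toNat]?))

/-- **COMB** (1.2 h). The two sides together.
Proof. Put `A = a.take l1 = p ++ ta ++ t` with `p = a[0, l2)`, `ta = a[l2, E)`, `t = a[E, l1)`, and
`D = d.take m1 = q ++ ta' ++ t'` with `q = d[0, m2)`, `ta' = d[m2, F)`, `t' = d[F, m1)`.
First alternative: `f2 = ta` (empty if `E = l2`), `f4 = ta'`, `c = f1 = f3 = []`.
Second alternative, with `O`. If `E = l2` and `F = m2`: everything empty. If `F = m2` and `E > l2`: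
`ta = d[l2 + O, E + O)`, inside `D`; since `ta' = []`, `D = q ++ t'`, and `ta = f2 ++ f1` with `f2`
the part at positions `< m2` (a factor of `q`), `f1` the part at positions `≥ m2` (a factor of
`t'`), `c = []`. Symmetrically if `E = l2` and `F > m2`. If both `E > l2`, `F > m2`: in the
coordinate of `a`, `ta` occupies `I = [l2, E)` and the copy of `ta'` in `a` occupies
`J = [m2 - O, F - O)` (integers), both inside `[0, l1)`; the copy of `I` in `d` is
`[l2 + O, E + O)`, inside `[0, m1)`. If `E ≤ m2 - O`: `ta` is a factor of `q` (`f2 = ta`), and the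
copy of `ta'` is at positions `≥ E` of `a`, so `ta'` is a factor of `t` (`f3 = ta'`), rest empty. If
`F - O ≤ l2`: `ta'` is a factor of `p` (`f4 = ta'`) and `ta` sits at positions `≥ F` of `d`, a factor
of `t'` (`f1 = ta`). Otherwise `I` and `J` overlap; `c` = the letters of `a` at `I ∩ J =
[max l2 (m2 - O), min E (F - O))`, which is a factor of `ta` and of `ta'`; the part of `ta` before it
is at positions `< m2` of `d`, a factor of `q` (`f2`), the part of `ta` after it is at positions
`≥ F` of `d`, a factor of `t'` (`f1`); the part of `ta'` before it is at positions `< l2` of `a`, a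
factor of `p` (`f4`), the part after it is at positions `≥ E` of `a`, a factor of `t` (`f3`). -/
def S_COMB : Prop :=
  ∀ (β : Type) (M : Set (List β)) (a d : List β) (l2 E l1 m2 F m1 : ℕ), FactorClosed M →
    l2 ≤ E → E ≤ l1 → l1 ≤ a.length → m2 ≤ F → F ≤ m1 → m1 ≤ d.length →
    (a.take l1).drop E ∈ LE M → (d.take m1).drop F ∈ LE M →
    (((E = l2 ∨ (a.take E).drop l2 <:+: d.take m2) ∧ (F = m2 ∨ (d.take F).drop m2 <:+: a.take l2)) ∨
      ∃ O : ℤ,
        (E = l2 ∨ ((E : ℤ) + O ≤ m1 ∧ ∀ h : ℕ, l2 ≤ h → h < E →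
          0 ≤ (h : ℤ) + O ∧ a[h]? = d[((h : ℤ) + O).toNat]?)) ∧
        (F = m2 ∨ ((F : ℤ) - O ≤ l1 ∧ ∀ h : ℕ, m2 ≤ h → h < F →
          0 ≤ (h : ℤ) - O ∧ d[h]? = a[((h : ℤ) - O).toNat]?))) →
    ADM M (a.take l1) (a.take l2) (d.take m1) (d.take m2)

/-- **ST** (1.2 h). The structure theorem. Uses `S_SIDE` (and its inputs), `S_LEL`, `S_COMB`.
Proof. Choose `j0` with `|P (j0, true)|` maximal, `j1 ≠ j0` with `|P (j1, true)|` maximal among the
others (`m ≥ 1`); `l1, l2` their values. Apply `S_SIDE` to `S`: `E`, and `a[E, l1) ∈ LE M` by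
`S_LEL` (if `E = l1` the word is empty; `[] ∈ LE M` since `[] ∈ M`: `M` contains `X e` and is factor
closed). The swapped structure `S' : PS M m d a` (`P' (j, b) = P (j, !b)`, `pi' (j, b) =` swap of
`pi (j, !b)`, etc.) gives `k0`, `k1`, `m1 ≥ m2`, `F`, `d[F, m1) ∈ LE M` in the same way; its offset
is called `O'`. Now `S_COMB`:
(1) `S.pi (j0, true) = (k0, false)`. Second alternative of `S_COMB` with `O` (if `E ≠ l2`; then
`E + O ≤ |P (k0, false)| = m1`), and for `F ≠ m2` we need `O' = -O` if `E ≠ l2` too: since `m ≥ 1`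
there is `j ≠ j0`, `f = pi (j, true)` has `f.2 = false` and `f ≠ (k0, false)` (`pi` is injective), so
`O = |P f| - |P (j, true)|` and `O' = |P (j, true)| - |P f|`; `F + O' ≤ |P (pi (k0, false))| =
|P (j0, true)| = l1`. If `E = l2` take `O = -O'`.
(2) `S.pi (j0, true) ≠ (k0, false)`. First alternative: if `E ≠ l2` then `D = pi (j0, true)` has
`D.2 = false`, `D ≠ (k0, false)`, so `|P D| ≤ m2`, `E + O ≤ m2`, and `a[l2, E) = d[l2 + O, E + O)` is
a factor of `d.take m2`. If `F ≠ m2` then `pi (k0, false) = (j, true)` with `j ≠ j0`, its `P` has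
length `≤ l2`, and `d[m2, F)` is a factor of `a.take l2`. -/
def S_ST : Prop :=
  ∀ (β : Type) (M : Set (List β)) (m : ℕ) (a d : List β) (S : PS M m a d), FactorClosed M → 1 ≤ m →
    S_SIDE → S_PA → S_PB → S_PC → S_LEL → S_COMB →
    ∃ l1 l2 m1 m2 : ℕ, l1 ≤ a.length ∧ m1 ≤ d.length ∧
      (∀ j, (S.P (j, true)).length ≤ l1) ∧ (∀ j, (S.P (j, false)).length ≤ m1) ∧
      (∃ j0 j1, j1 ≠ j0 ∧ (S.P (j0, true)).length = l1 ∧ (S.P (j1, true)).length = l2) ∧
      (∃ j0 j1, j1 ≠ j0 ∧ (S.P (j0, false)).length = m1 ∧ (S.P (j1, false)).length = m2) ∧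
      ADM M (a.take l1) (a.take l2) (d.take m1) (d.take m2)

/-! ## From the group to words -/

/-- **TRI** (0.8 h). Cancellation in a product `X v Y⁻¹` of reduced words.
Proof. First let `x⁻¹` be the longest part of `v` cancelling against the end of `X`: `X = X1 ++ x`,
`v = invRev x ++ v1`, `X1 ++ v1` reduced. (For two words: `toWord_mul_cancel` in
`Pool/Agent/Helper35/PP` or induction.) Then cancel `X1 ++ v1` against `invRev Y`:
`X1 ++ v1 = U ++ w`, `Y = Q ++ w`, and `U ++ invRev Q` is reduced, so it is `b`. If `w` is shorter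
than `v1`: `v1 = v' ++ w`, `U = X1 ++ v'`; take `p = X1`, `c = []`, `z = w`, `q = Q`. Otherwise
`w = c ++ v1`, `X1 = U ++ c`; take `v' = []`, `z = v1`, `p = U`, `q = Q` (`Y = Q ++ c ++ v1`). -/
def S_TRI : Prop :=
  ∀ (α : Type) [DecidableEq α] (X v Y b : List (α × Bool)), FreeGroup.IsReduced X →
    FreeGroup.IsReduced v → FreeGroup.IsReduced Y → FreeGroup.IsReduced b →
    FreeGroup.mk X * FreeGroup.mk v * (FreeGroup.mk Y)⁻¹ = FreeGroup.mk b →
    ∃ p c x q z v' : List (α × Bool), X = p ++ c ++ x ∧ Y = q ++ c ++ z ∧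
      v = FreeGroup.invRev x ++ v' ++ z ∧ b = p ++ v' ++ FreeGroup.invRev q ∧ (c = [] ∨ v' = [])

/-- **SEC** (1.5 h). The transformed blocks have no bad pairs.
Proof. As in `Pool.Agent.Helper35.PX.zrule`: `exists_nondegenerate_leaf` gives `p, q ∈ ZS i` and a
leaf `(A0, B0)` of `E' = theta i p⁻¹ q⁻¹ ⁻¹' E`; `A, B` = the filtered sets, `Sides` as there. Put
`a = q⁻¹`, `d = p`, so that `Rf p q (!s) = if s then a else d` and `Rf p q s = if s then d else a`.
Let `b' k = ((if s k then a else d)⁻¹ * mk (b k) * (if s (k+1) then d else a)).toWord`, a reduced word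
without the letter `i`, and `c' = cw i m s b'`. (1) `c'` is cyclically reduced: a cancellation can
only occur between `(i, s k)` and `(i, s (k+1))` with `b' k = []` and `s (k+1) = !s k`; then
`mk (b k) = 1`, `b k = []` (it is reduced as a factor of `cw i m s b`), and the word `cw i m s b`
(cyclically, for `k = m`) is not reduced. (2) `theta i p q (mk (cw i m s b)) =
Rf p q (s 0) * mk c' * (Rf p q (s 0))⁻¹` (`theta_el_i`, `theta_fix`; telescoping product over the
letters). (3) `theta i p⁻¹ q⁻¹` is inverse to `theta i p q` (`theta_theta`, see `hsymm` in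
`second_restriction`), so `PosLine E (mk (cw ..))` gives `PosLine E' (mk c')` (`PosLine.preimage`,
`PosLine.conj`). (4) `Lang_of_leaf` gives `c' ∈ Lang univ A0 B0`, and its factor `b' k` is in
`Lang (Zi i) A B`. -/
def S_SEC : Prop :=
  ∀ (α : Type) [Fintype α] [DecidableEq α] (E : Set (FreeGroup α)) (i : α), Good E → CutsZ i E →
    ∃ a ∈ ZS i, ∃ d ∈ ZS i, ∃ A B : Finset (α × Bool), Sides (Zi i) A B ∧
      ∀ (m : ℕ) (s : Fin (m + 1) → Bool) (b : Fin (m + 1) → List (α × Bool)),
        (∀ k, ∀ x ∈ b k, x.1 ≠ i) → FreeGroup.IsCyclicallyReduced (cw i m s b) →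
        PosLine E (FreeGroup.mk (cw i m s b)) → Tr i A B a d m s b

/-- **CV** (1.5 h). The cover, uniformly for all rotations of the word. Uses `S_SEC`.
Proof. Copy `Pool.Agent.Helper35.PX.coverX` (Assembly.lean; the hypotheses `StmtB`, `StmtBCC` are
`Pool.Agent.Helper3.PX.stmtB`, `Pool.Agent.Helper89.PX.stmtBCC`, the others are in
`Pool/Agent/Helper35/PX/Rate.lean`). All rules come from leaves of sets `E` which depend only on `E`;
`PosLine E (mk c)` and `IsCyclicallyReduced c` hold for every rotation `c'` of `c`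
(`PosLine.conj`, `mk_rotate`, `rotate_cyc`), so `leaf_dich`, `third` (restate it with the data chosen
before `c`: its proof does this) and `rule2` give the same sets for all rotations. First case of
`coverX` and the set `K3`: put them into `K` (finite unions; `W z0 < ⊤` by `StmtL` (4) and
`W_K3_le`). The other three cases: `ι` = the same parameters as in `coverX` together with the
validity conditions, `SS = S2 .., S1 .., S4 ..`; replace `zrule` by `S_SEC` (with
`AxisCut.cutsZ`); the bound `W z0 (TS ..) ≤ 70 r` is proved inside `W_case2`, `W_case3`, `W_case4`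
(Finite.lean; there it is the argument of `dict_step`). -/
def S_CV : Prop :=
  S_SEC → ∀ (α : Type) [Fintype α] [DecidableEq α], 100 ≤ Fintype.card α →
    ∃ K : Set (List (α × Bool)), W (ENNReal.ofReal (z0 α)) K < ⊤ ∧
    ∃ (ι : Type) (_ : Finite ι) (i : ι → α) (SS : ι → Set (List (α × Bool)))
      (A B : ι → Finset (α × Bool)), (∀ t, Cls (i t) (SS t) (A t) (B t)) ∧
      ∀ c : List (α × Bool), FreeGroup.IsCyclicallyReduced c → AdmX (FreeGroup.mk c) →
        c ∈ K ∨ ∃ t, (∀ c', c' ~r c → c' ∈ SS t) ∧ ∃ a ∈ ZS (i t), ∃ d ∈ ZS (i t),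
          ∀ (m : ℕ) (s : Fin (m + 1) → Bool) (b : Fin (m + 1) → List (α × Bool)),
            cw (i t) m s b ~r c → (∀ k, ∀ x ∈ b k, x.1 ≠ i t) → Tr (i t) (A t) (B t) a d m s b

/-- **REP** (0.6 h). Cyclic representation of a word with `m + 1` letters `i`.
Proof. Rotate so that the first letter is a letter `i`; then the word is a list of `m + 1` pieces
`(i, s k) :: b k` (induction on `m` for words starting with `i`, splitting at the next letter `i`;
compare `exists_first` in `Pool/Agent/Helper96/PX/Dict.lean`). -/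
def S_REP : Prop :=
  ∀ (α : Type) [DecidableEq α] (i : α) (m : ℕ) (c : List (α × Bool)),
    c.countP (fun x => x.1 = i) = m + 1 →
    ∃ (s : Fin (m + 1) → Bool) (b : Fin (m + 1) → List (α × Bool)),
      (∀ k, ∀ x ∈ b k, x.1 ≠ i) ∧ cw i m s b ~r c

/-- **LNK** (1.2 h). The pairing structure. Uses `S_TRI`.
Proof. For every `k` apply `S_TRI` to `X = (if s k then a else d).toWord`, `v = b' k` = the word in
`Tr`, `Y = (if s (k+1) then d else a).toWord`, `b k` (reduced, a factor of `cw`). This gives
`p, c, x, q, z, v'` (depending on `k`). The right end of the letter `k` is `(k, s k)`, the left end of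
the letter `k + 1` is `(k + 1, !s (k + 1))`; `pi` exchanges them: `pi (k, t) = (k + 1, !s (k + 1))` if
`t = s k`, and `pi (k, t) = (k - 1, s (k - 1))` otherwise (arithmetic of `Fin (m + 1)` is cyclic).
`P (k, t) = p k` if `t = s k`, `q (k - 1)` otherwise; the same for `C` (`c k`, `c (k - 1)`) and `X`
(`x k`, `z (k - 1)`). `X e ∈ MI`: `x`, `z` come from `b' k = invRev x ++ v' ++ z ∈ Lang`, factor
closed. `nofix`: for `m ≥ 1`, `k + 1 ≠ k`. `nd`: say `e = (k, s k)`, same type as
`(k + 1, !s (k + 1))`: `s (k + 1) = !s k`, and the words at both ends are equal; if `c k ≠ []` then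
`v' k = []`; if `|p k| = |q k|` then `p k = q k` (prefixes of the same word),
`b k = p k ++ invRev (p k)` is reduced, so `p k = []`, `b k = []`, and `(i, s k)`,
`(i, !s k)` are neighbours in the cyclically reduced word `cw i m s b`, a contradiction. -/
def S_LNK : Prop :=
  S_TRI → ∀ (α : Type) [Fintype α] [DecidableEq α] (i : α) (A B : Finset (α × Bool))
    (a d : FreeGroup α) (m : ℕ) (s : Fin (m + 1) → Bool) (b : Fin (m + 1) → List (α × Bool)),
    a ∈ ZS i → d ∈ ZS i → 1 ≤ m → (∀ k, ∀ x ∈ b k, x.1 ≠ i) →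
    FreeGroup.IsCyclicallyReduced (cw i m s b) → Tr i A B a d m s b →
    ∃ (S : PS (MI i A B) m a.toWord d.toWord) (v : Fin (m + 1) → List (α × Bool)),
      ∀ k, v k ∈ Lang (Zi i) A B ∧
        b k = S.P (k, s k) ++ v k ++ FreeGroup.invRev (S.P (k + 1, !s (k + 1)))

/-- **MRG** (1.5 h). Letters without dictionary words are merged into the words of `TS`.
Proof. The word is, cyclically, `(i, s k) P(k, s k) (v k) (P(k+1, !s(k+1)))⁻¹`, `k = 0, ..., m`. The
record of the letter `k` is `(s k, |P (k, true)|, |P (k, false)|, v k)`; its right dictionary word is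
`P (k, s k)` = prefix of `A = a.take l1` or `D = d.take m1`, its left one is
`invRev (P (k, !s k))`, as in `rt`, `lt`. If all usages are `0`, the whole word is in `SS` and has no
bad pair (`NB` only concerns neighbours which are both different from `i`, and these are inside one
`v k`; see `NB_extend` in `Pool/Agent/Helper96/PX/Dict.lean`): first alternative. Otherwise rotate so
that the letter `0` has a nonzero usage (replace `k` by `k + k0` everywhere), and merge: for a list of
records `r1, ..., rn` after it, by induction the word `v ++ lin (r1 .. rn)` is `t ++ lin (r1' .. rk')`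
where the `r'` are the records with nonzero usages and the following words are products
`v (i, s) v' (i, s') ...`. Each such product is a factor of the rotated word, so it is in `SS`
(factor closed), and it has no bad pair. `Mark`: if `l1 = 0`, take the first record (all values are
`0`, and `l2 = 0`); if `l1 > 0` the letter `j0` is among the remaining records; if `l2 > 0` so is
`j1`, otherwise `y = 0`. Same for `m1`, `m2`. `A, D ∈ Zr (Zi i)` as prefixes. -/
def S_MRG : Prop :=
  ∀ (α : Type) [Fintype α] [DecidableEq α] (i : α) (A B : Finset (α × Bool))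
    (SS M : Set (List (α × Bool))) (m : ℕ) (s : Fin (m + 1) → Bool)
    (b : Fin (m + 1) → List (α × Bool)) (P : Fin (m + 1) × Bool → List (α × Bool))
    (v : Fin (m + 1) → List (α × Bool)) (a d : List (α × Bool)) (l1 l2 m1 m2 : ℕ),
    FactorClosed SS → a ∈ Zr (Zi i) → d ∈ Zr (Zi i) → l1 ≤ a.length → m1 ≤ d.length →
    (∀ k, v k ∈ Lang (Zi i) A B ∧ b k = P (k, s k) ++ v k ++ FreeGroup.invRev (P (k + 1, !s (k + 1)))) →
    (∀ j, P (j, true) <+: a) → (∀ j, P (j, false) <+: d) →
    (∀ j, (P (j, true)).length ≤ l1) → (∀ j, (P (j, false)).length ≤ m1) →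
    (∃ j0 j1, j1 ≠ j0 ∧ (P (j0, true)).length = l1 ∧ (P (j1, true)).length = l2) →
    (∃ j0 j1, j1 ≠ j0 ∧ (P (j0, false)).length = m1 ∧ (P (j1, false)).length = m2) →
    ADM M (a.take l1) (a.take l2) (d.take m1) (d.take m2) →
    (∀ c', c' ~r cw i m s b → c' ∈ SS) →
    cw i m s b ∈ TS i A B SS ∨ ∃ c', c' ~r cw i m s b ∧ c' ∈ FF i (TS i A B SS) M

/-! ## Generating functions -/

/-- **GENA** (0.8 h). Weight of the words given by lists of records with prescribed sets.
Proof. If the lengths in the records are at most `|A|`, `|D|`, the length of `cyc i A D e l` is the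
sum of `1 + e.2.1 + e.2.2.1 + |e.2.2.2|` over the records `e :: l`. The tsum over the lists `L` with
`List.Forall₂ (· ∈ ·) L Us` of the product of the weights is the product of the tsums (induction on
`Us`; compare `W_app_le`), and `L ↦ cyc` is surjective onto the set of words
(`ENNReal.tsum_le_tsum_comp_of_surjective`). -/
def S_GENA : Prop :=
  ∀ (α : Type) [DecidableEq α] (i : α) (A D : List (α × Bool)) (z : ℝ≥0∞)
    (Us : List (Set (Rec α))),
    (∀ U ∈ Us, ∀ r ∈ U, r.2.1 ≤ A.length ∧ r.2.2.1 ≤ D.length) →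
    W z {c | ∃ (e : Rec α) (l : List (Rec α)),
      List.Forall₂ (fun r U => r ∈ U) (e :: l) Us ∧ c = cyc i A D e l} ≤
      (Us.map fun (U : Set (Rec α)) => ∑' r : U,
        z ^ (1 + (r : Rec α).2.1 + (r : Rec α).2.2.1 + (r : Rec α).2.2.2.length)).prod

/-- **GENB** (1.5 h). The words with an admissible dictionary have finite weight. Uses `S_GENA`.
Proof. We may assume `0 < ω` (enlarge `ω` a little). `FF i T M` is contained in the union over
`(A, p, D, q) ∈ ADMS i M`, over `n ≥ 1`, `j0, j0' : Fin n`, `j1, j1' : Option (Fin n)` (with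
`j1 ≠ some j0`, and `|p| = 0` if `j1 = none`; the same for `j1'`, `q`) of the sets of `S_GENA` with
`Us = List.ofFn U`, `U k` = the records with `0 < α + δ`, `α ≤ |A|`, `δ ≤ |D|`, last word in `T`,
and `α = |A|` if `k = j0`, `α = |p|` if `j1 = some k`, `δ = |D|` if `k = j0'`, `δ = |q|` if
`j1' = some k` (`α`, `δ` the second and third component). Weight of `U k`: at most
`ρ = 2 z ω ((1 - z)^(-2) - 1) = 2 z^2 (2 - z) / (1 - z)^2 ω < 1` if `k` is not marked (sum over
`(α, δ) ≠ (0, 0)`), and at most `K z^(cost k)`, `K = 2 z ω / (1 - z)^2`, if `k` is marked, where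
`cost k` is the sum of the prescribed lengths at `k`. The sum of the costs is
`|A| + |p| + |D| + |q|`. At most four places are marked, so the product is at most
`ρ^n (max 1 (K / ρ))^4 z^(|A| + |p| + |D| + |q|)`; there are at most `(n + 1)^4` choices of the
marks, and `∑ n, (n + 1)^4 ρ^n < ∞`. Unions over infinite index types:
`ENNReal.tsum_iUnion_le_tsum`. -/
def S_GENB : Prop :=
  S_GENA → ∀ (α : Type) [Fintype α] [DecidableEq α] (i : α) (T M : Set (List (α × Bool)))
    (z ω : ℝ), 0 < z → z < 1 → 0 ≤ ω → W (ENNReal.ofReal z) T ≤ ENNReal.ofReal ω →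
    2 * z ^ 2 * (2 - z) / (1 - z) ^ 2 * ω < 1 → WQ (ENNReal.ofReal z) (ADMS i M) < ⊤ →
    W (ENNReal.ofReal z) (FF i T M) < ⊤

/-- **NUM** (0.3 h). As `Pool.Agent.Helper35.PX.dict_num`, at the point `z0` itself (there
`(2 R - 4) z0 = 1 - z0`, and `280 R < (2 R - 4)^2` for `R ≥ 100`). -/
def S_NUM : Prop :=
  ∀ (α : Type) [Fintype α], 100 ≤ Fintype.card α →
    2 * (z0 α) ^ 2 * (2 - z0 α) / (1 - z0 α) ^ 2 * (70 * Fintype.card α) < 1

/-! ## Counting the main term -/

/-- **CN1** (1 h). Number of cyclically reduced words of length `n ≥ 2` with exactly one letter `i`.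
Proof. Bijection with (position `k < n`, sign, reduced word `w` of length `n - 1` without `i`): the
word is `w.drop (n-1-k) ++ (i, s) :: w.take (n-1-k)`; i.e. `c = u ++ (i, s) :: v` with `v ++ u`
reduced, `|u| = k` (for such a `c`: reduced and cyclically reduced iff `v ++ u` is reduced, because
the neighbours of `(i, s)` are different letters). The number of reduced words of length `l + 1` over
an inverse closed set of `2 r - 2` letters is `(2 r - 2) (2 r - 3) ^ l`. -/
def S_CN1 : Prop :=
  ∀ (α : Type) [Fintype α] [DecidableEq α] (i : α) (n : ℕ), 2 ≤ Fintype.card α →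
    {c : List (α × Bool) | FreeGroup.IsCyclicallyReduced c ∧ c.length = n + 2 ∧
      c.countP (fun x => x.1 = i) = 1}.ncard =
    (n + 2) * (2 * ((2 * Fintype.card α - 2) * (2 * Fintype.card α - 3) ^ n))

/-- **CN2** (0.6 h). Words in which two letters occur exactly once are negligible.
Proof. Such a word is `u x v y w` with `u, v, w` reduced without the letters `i`, `j` and `x, y` among
the four letters `i^±, j^±`; so the weight is at most `(4 z0)^2 (W z0 (Zr (Yl i j)))^3`, finite by
`W_Zr`, because `(2 r - 5) z0 < 1` (`Yl_card`, `Yl_nv` in Finite.lean). -/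
def S_CN2 : Prop :=
  ∀ (α : Type) [Fintype α] [DecidableEq α] (i j : α), i ≠ j → 100 ≤ Fintype.card α →
    W (ENNReal.ofReal (z0 α)) {c : List (α × Bool) | c.IsChain (fun x y => y ≠ nv x) ∧
      c.countP (fun x => x.1 = i) = 1 ∧ c.countP (fun x => x.1 = j) = 1} < ⊤

/-- **CN3** (0.8 h). The number of cyclically reduced words with a letter occurring exactly once.
Uses `S_CN1`, `S_CN2`.
Proof. Inclusion and exclusion: `∑ i |P_i| - ∑ {i < j} |P_i ∩ P_j| ≤ |⋃ P_i| ≤ ∑ i |P_i|`,
`|P_i ∩ P_j| z0^n → 0` (`ncard_mul_pow_le` gives only boundedness, which is enough, because we divide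
by `n`), and `r (n) 2 (2r-2) (2r-3)^(n-2) / (n (2r-3)^n) = 4 r (r-1) / (2r-3)^2` for `n ≥ 2`. -/
def S_CN3 : Prop :=
  S_CN1 → S_CN2 → ∀ (α : Type) [Fintype α] [DecidableEq α], 100 ≤ Fintype.card α →
    Filter.Tendsto (fun n : ℕ => (({c : List (α × Bool) | FreeGroup.IsCyclicallyReduced c ∧
        c.length = n ∧ Once c}.ncard : ℕ) : ℝ) / (n * (2 * (Fintype.card α : ℝ) - 3) ^ n))
      Filter.atTop
      (nhds (4 * Fintype.card α * (Fintype.card α - 1) / (2 * (Fintype.card α : ℝ) - 3) ^ 2))

/-- **CJ1** (1 h). Elements with cyclic reduction in a set `C` of nonempty cyclically reduced words.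
Proof. A reduced word `w` with nonempty cyclic reduction `c` is uniquely `g ++ c ++ invRev g`
(`FreeGroup.reduceCyclically.conj_conjugator_reduceCyclically`); conversely, if `g ++ c ++ invRev g`
is reduced and `c` is nonempty and cyclically reduced, its cyclic reduction is `c` and its conjugator
is `g` (induction on `g` with the recursion of `reduceCyclically`). Count by `k = |g|`. -/
def S_CJ1 : Prop :=
  ∀ (α : Type) [Fintype α] [DecidableEq α] (C : Set (List (α × Bool))) (n : ℕ),
    (∀ c ∈ C, FreeGroup.IsCyclicallyReduced c ∧ c ≠ []) →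
    {u : FreeGroup α | u.norm = n ∧ FreeGroup.reduceCyclically u.toWord ∈ C}.ncard =
      ∑ k ∈ Finset.range (n / 2 + 1), {t : List (α × Bool) × List (α × Bool) |
        t.1.length = k ∧ t.2 ∈ C ∧ t.2.length = n - 2 * k ∧
        FreeGroup.IsReduced (t.1 ++ t.2 ++ FreeGroup.invRev t.1)}.ncard

/-- **CJ2** (0.8 h). Number of conjugators.
Proof. For `k + 1 = |g|`: `g ++ c ++ invRev g` is reduced iff `g` is reduced and its last letter is
neither the inverse of the first letter of `c` nor the last letter of `c`; these two letters are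
different because `c` is cyclically reduced (for a word `c` of length one they are the letter and its
inverse). So there are `2 r - 2` choices for the last letter of `g` and `2 r - 1` for each other. -/
def S_CJ2 : Prop :=
  ∀ (α : Type) [Fintype α] [DecidableEq α] (c : List (α × Bool)) (k : ℕ), 2 ≤ Fintype.card α →
    FreeGroup.IsCyclicallyReduced c → c ≠ [] →
    {g : List (α × Bool) | g.length = k + 1 ∧
      FreeGroup.IsReduced (g ++ c ++ FreeGroup.invRev g)}.ncard =
      (2 * Fintype.card α - 2) * (2 * Fintype.card α - 1) ^ k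

/-- **LIM** (1 h). The limit of the conjugation sum (dominated convergence for series).
Proof. `U n / (n ρ^n) = T n / (n ρ^n) + ∑ k < n / 2, A q^k T (n - 2 (k + 1)) / (n ρ^n)` and
`T (n - 2 (k+1)) / (n ρ^n) = ρ^(-2 (k+1)) * ((n - 2 (k+1)) / n) * (T (n - 2 (k+1)) /
((n - 2 (k+1)) ρ^(n - 2 (k+1))))`, which tends to `ρ^(-2 (k+1)) τ` for fixed `k` and is at most
`C ρ^(-2 (k+1))` in all cases (`T m ≤ C m ρ^m` for `m ≥ 1`, and `T 0 = 0`). Since `q < ρ^2` the
dominating series converges (`tendsto_tsum_of_dominated_convergence`), and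
`∑ k, A q^k ρ^(-2 (k+1)) = A / (ρ^2 - q)`. -/
def S_LIM : Prop :=
  ∀ (T U : ℕ → ℝ) (A q ρ τ : ℝ), 0 ≤ A → 0 ≤ q → 1 < ρ → q < ρ ^ 2 → T 0 = 0 → (∀ n, 0 ≤ T n) →
    (∀ n, U n = T n + ∑ k ∈ Finset.range (n / 2), A * q ^ k * T (n - 2 * (k + 1))) →
    Filter.Tendsto (fun n : ℕ => T n / (n * ρ ^ n)) Filter.atTop (nhds τ) →
    Filter.Tendsto (fun n : ℕ => U n / (n * ρ ^ n)) Filter.atTop (nhds (τ * (1 + A / (ρ ^ 2 - q))))

/-- **PRI** (0.6 h). A word in which a letter occurs exactly once is primitive.
Proof. `c = u ++ (i, s) :: v` with `u, v` without the letter `i`. If `s = true`, the automorphism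
`theta i (mk u) (mk v)` (`of i ↦ mk u * of i * mk v`, all other generators fixed; `thetaE` in
`Pool/Agent/Helper35/PP/Surgery.lean`) maps `of i` to `mk c`. If `s = false`, `mk c =
(mk v)⁻¹.. `: `mk c = mk u * (of i)⁻¹ * mk v` is the image of `(of i)` under the automorphism
`of i ↦ mk u * (of i)⁻¹ * mk v`, the composition of `theta i (mk u) (mk v)` ∘ (inversion of the
generator `i`), or: `(mk c)⁻¹ = (mk v)⁻¹ * of i * (mk u)⁻¹` is the image of `of i` under
`theta i (mk v)⁻¹ (mk u)⁻¹`, and an automorphism composed with the automorphism inverting the single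
generator `i` handles the inverse. -/
def S_PRI : Prop :=
  ∀ (α : Type) [DecidableEq α] (i : α) (c : List (α × Bool)),
    c.countP (fun x => x.1 = i) = 1 → Prim (FreeGroup.mk c)

/-- **NG1** (0.8 h). Counting rotations.
Proof. For `n ≥ 1` a word `c` of length `n` with `c ~r c'`, `c' ∈ G`, is `c'.rotate k` with `k < n`,
so the number is at most `n` times the number of `c' ∈ G` of length `n`; and
`(G ∩ {length = n}).ncard * z ^ n → 0` because `∑ n, (G ∩ {length = n}).ncard * z ^ n = W z G` is
finite. -/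
def S_NG1 : Prop :=
  ∀ (β : Type) [Finite β] (G : Set (List β)) (z : ℝ), 0 < z → W (ENNReal.ofReal z) G < ⊤ →
    Filter.Tendsto (fun n : ℕ => (({c : List β | c.length = n ∧ ∃ c', c' ~r c ∧ c' ∈ G}.ncard : ℕ) : ℝ)
      * z ^ n / n) Filter.atTop (nhds 0)

/-- **NG2** (0.5 h). Words without the letter `i`.
Proof. At most `(2 r - 2) (2 r - 3)^(n-1)` reduced words of length `n ≥ 1` without the letter `i`. -/
def S_NG2 : Prop :=
  ∀ (α : Type) [Fintype α] [DecidableEq α] (i : α), 100 ≤ Fintype.card α →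
    Filter.Tendsto (fun n : ℕ => (({c : List (α × Bool) | c.IsChain (fun x y => y ≠ nv x) ∧
      c.length = n ∧ ∀ x ∈ c, x.1 ≠ i}.ncard : ℕ) : ℝ) * (z0 α) ^ n / n) Filter.atTop (nhds 0)

end Pool.Agent.Helper86.AP
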