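import Mathlib
import Pool.Agent.Helper86.AP.Goals

/-!
Project AP, packet CJ1: elements with cyclic reduction in a given set.
-/

set_option autoImplicit false

namespace Pool.Agent.Helper86.AP

open FreeGroup Pool.Agent.Helper35.PP Pool.Agent.Helper35.PX

section

variable {α : Type} [DecidableEq α]

omit [DecidableEq α] in
lemma invRev_cons' (x : α × Bool) (g : List (α × Bool)) :
    FreeGroup.invRev (x :: g) = FreeGroup.invRev g ++ [(x.1, !x.2)] := by
  simp [FreeGroup.invRev]

lemma red_cyc {c : List (α × Bool)} (hc : FreeGroup.IsCyclicallyReduced c) (hne : c ≠ []) :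
    FreeGroup.reduceCyclically c = c ∧ FreeGroup.reduceCyclically.conjugator c = [] := by
  induction c using List.bidirectionalRec with
  | nil => exact absurd rfl hne
  | singleton a => simp
  | cons_append a L b _ =>
    rw [FreeGroup.reduceCyclically.cons_append, FreeGroup.reduceCyclically.conjugator.cons_append]
    have h : ¬ (b.1 = a.1 ∧ (!b.2) = a.2) := by
      have := (FreeGroup.isCyclicallyReduced_cons_append_iff.1 hc).2
      rintro ⟨h1, h2⟩
      have h3 := this h1
      rw [h3] at h2
      cases a.2 <;> simp at h2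
    rw [if_neg h, if_neg h]
    exact ⟨rfl, rfl⟩

lemma red_conj {c : List (α × Bool)} (hc : FreeGroup.IsCyclicallyReduced c) (hne : c ≠ [])
    (g : List (α × Bool)) :
    FreeGroup.reduceCyclically (g ++ c ++ FreeGroup.invRev g) = c ∧
      FreeGroup.reduceCyclically.conjugator (g ++ c ++ FreeGroup.invRev g) = g := by
  induction g with
  | nil => simpa using red_cyc hc hne
  | cons x g ih =>
    have e : x :: g ++ c ++ FreeGroup.invRev (x :: g) =
        x :: ((g ++ c ++ FreeGroup.invRev g) ++ [(x.1, !x.2)]) := by
      rw [invRev_cons']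
      simp
    rw [e, FreeGroup.reduceCyclically.cons_append,
      FreeGroup.reduceCyclically.conjugator.cons_append]
    have h : ((x.1, !x.2) : α × Bool).1 = x.1 ∧ (!((x.1, !x.2) : α × Bool).2) = x.2 := by simp
    rw [if_pos h, if_pos h]
    exact ⟨ih.1, by rw [ih.2]⟩

end

theorem tCJ1 : S_CJ1 := by
  intro α _ _ C n hC
  classical
  set T : Set (List (α × Bool) × List (α × Bool)) := {t | t.2 ∈ C ∧
    2 * t.1.length + t.2.length = n ∧ FreeGroup.IsReduced (t.1 ++ t.2 ++ FreeGroup.invRev t.1)}
    with hT
  have hTfin : T.Finite := by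
    apply ((List.finite_length_le (α × Bool) n).prod (List.finite_length_le (α × Bool) n)).subset
    rintro t ⟨-, h2, -⟩
    exact ⟨show t.1.length ≤ n by omega, show t.2.length ≤ n by omega⟩
  have h1 : {u : FreeGroup α | u.norm = n ∧ FreeGroup.reduceCyclically u.toWord ∈ C}.ncard =
      T.ncard := by
    symm
    apply Set.ncard_congr (fun t _ => FreeGroup.mk (t.1 ++ t.2 ++ FreeGroup.invRev t.1))
    · rintro t ⟨h1, h2, h3⟩
      have e : (FreeGroup.mk (t.1 ++ t.2 ++ FreeGroup.invRev t.1)).toWord =
          t.1 ++ t.2 ++ FreeGroup.invRev t.1 := by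
        rw [toWord_mk, h3.reduce_eq]
      refine ⟨?_, ?_⟩
      · unfold FreeGroup.norm
        rw [e, List.length_append, List.length_append, FreeGroup.invRev_length]
        omega
      · rw [e, (red_conj (hC _ h1).1 (hC _ h1).2 t.1).1]
        exact h1
    · rintro t t' ⟨h1, h2, h3⟩ ⟨h1', h2', h3'⟩ h
      have h4 := congrArg FreeGroup.toWord h
      rw [toWord_mk, toWord_mk, h3.reduce_eq, h3'.reduce_eq] at h4
      have r1 := red_conj (hC _ h1).1 (hC _ h1).2 t.1
      have r2 := red_conj (hC _ h1').1 (hC _ h1').2 t'.1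
      rw [h4] at r1
      exact Prod.ext (r1.2.symm.trans r2.2) (r1.1.symm.trans r2.1)
    · rintro u ⟨h1, h2⟩
      have e := FreeGroup.reduceCyclically.conj_conjugator_reduceCyclically u.toWord
      refine ⟨(FreeGroup.reduceCyclically.conjugator u.toWord,
        FreeGroup.reduceCyclically u.toWord), ⟨h2, ?_, ?_⟩, ?_⟩
      · have h3 := congrArg List.length e
        rw [List.length_append, List.length_append, FreeGroup.invRev_length] at h3
        unfold FreeGroup.norm at h1
        simp only
        omega
      · simp only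
        rw [e]
        exact isReduced_toWord
      · simp only
        rw [e, mk_toWord]
  rw [h1, Set.ncard_eq_toFinset_card T hTfin]
  rw [Finset.card_eq_sum_card_fiberwise (f := fun t => t.1.length)
    (t := Finset.range (n / 2 + 1))]
  · apply Finset.sum_congr rfl
    intro k hk
    rw [Finset.mem_range] at hk
    rw [← Set.ncard_coe_finset]
    congr 1
    ext t
    simp only [Finset.coe_filter, Set.Finite.mem_toFinset, Set.mem_setOf_eq, hT]
    constructor
    · rintro ⟨⟨h1, h2, h3⟩, h4⟩
      exact ⟨h4, h1, by omega, h3⟩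
    · rintro ⟨h4, h1, h2, h3⟩
      have hne := List.length_pos_iff.2 (hC _ h1).2
      exact ⟨⟨h1, by omega, h3⟩, h4⟩
  · intro t ht
    simp only [Set.Finite.coe_toFinset, hT, Set.mem_setOf_eq] at ht
    simp only [Finset.coe_range, Set.mem_Iio]
    omega

end Pool.Agent.Helper86.AP
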