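import Mathlib
import Pool.Agent.Helper86.AP.Goals

/-!
Project AP, packet CN3: number of cyclically reduced words with a letter occurring exactly once.
-/

set_option autoImplicit false

namespace Pool.Agent.Helper86.AP

open FreeGroup Filter Pool.Agent.Helper35.PP Pool.Agent.Helper35.PX
open scoped ENNReal

section incl

variable {ι X : Type} [Fintype ι] [DecidableEq ι]

lemma sum_le_union (P : ι → Set X) (hfin : ∀ i, (P i).Finite) :
    ∑ i, (P i).ncard ≤ (⋃ i, P i).ncard + ∑ i, ∑ j ∈ Finset.univ.erase i, (P i ∩ P j).ncard := by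
  classical
  have hU : (⋃ i, P i).Finite := Set.finite_iUnion hfin
  set U := hU.toFinset with hUdef
  have hcount : ∀ S : Set X, S ⊆ ⋃ i, P i → S.ncard = ∑ c ∈ U, if c ∈ S then 1 else 0 := by
    intro S hS
    rw [Finset.sum_ite, Finset.sum_const_zero, add_zero, Finset.sum_const, smul_eq_mul, mul_one,
      ← Set.ncard_coe_finset]
    congr 1
    ext c
    simp only [Finset.coe_filter, Set.mem_setOf_eq, hUdef, Set.Finite.mem_toFinset]
    exact ⟨fun h => ⟨hS h, h⟩, fun h => h.2⟩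
  have h1 : ∀ i, (P i).ncard = ∑ c ∈ U, if c ∈ P i then 1 else 0 := fun i =>
    hcount _ (Set.subset_iUnion P i)
  have h2 : ∀ i j, (P i ∩ P j).ncard = ∑ c ∈ U, if c ∈ P i ∩ P j then 1 else 0 := fun i j =>
    (hcount _ (Set.inter_subset_left.trans (Set.subset_iUnion P i))).trans
      (Finset.sum_congr rfl fun c _ => by by_cases h : c ∈ P i ∩ P j <;> simp [h])
  have h3 : (⋃ i, P i).ncard = ∑ c ∈ U, 1 := by
    rw [Finset.sum_const, smul_eq_mul, mul_one, hUdef, Set.ncard_eq_toFinset_card _ hU]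
  have e1 : ∑ i, (P i).ncard = ∑ c ∈ U, ∑ i, if c ∈ P i then 1 else 0 := by
    rw [Finset.sum_comm]
    exact Finset.sum_congr rfl fun i _ => h1 i
  have e2 : ∑ i, ∑ j ∈ Finset.univ.erase i, (P i ∩ P j).ncard =
      ∑ c ∈ U, ∑ i, ∑ j ∈ Finset.univ.erase i, if c ∈ P i ∩ P j then 1 else 0 := by
    rw [Finset.sum_comm]
    apply Finset.sum_congr rfl
    intro i _
    rw [Finset.sum_comm]
    exact Finset.sum_congr rfl fun j _ => h2 i j
  rw [e1, e2, h3, ← Finset.sum_add_distrib]
  apply Finset.sum_le_sum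
  intro c hc
  rw [hUdef, Set.Finite.mem_toFinset, Set.mem_iUnion] at hc
  obtain ⟨i0, hi0⟩ := hc
  rw [← Finset.add_sum_erase _ _ (Finset.mem_univ i0), if_pos hi0]
  refine Nat.add_le_add_left ?_ _
  refine le_trans ?_ (Finset.single_le_sum (f := fun i => ∑ j ∈ Finset.univ.erase i,
    if c ∈ P i ∩ P j then 1 else 0) (fun i _ => Nat.zero_le _) (Finset.mem_univ i0))
  apply Finset.sum_le_sum
  intro j _
  by_cases hj : c ∈ P j
  · rw [if_pos hj, if_pos ⟨hi0, hj⟩]
  · rw [if_neg hj]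
    exact Nat.zero_le _

end incl

theorem tCN3 : S_CN3 := by
  intro hCN1 hCN2 α _ _ hr
  classical
  have hR : (100 : ℝ) ≤ Fintype.card α := by exact_mod_cast hr
  set P : α → ℕ → Set (List (α × Bool)) := fun i n =>
    {c | FreeGroup.IsCyclicallyReduced c ∧ c.length = n ∧ c.countP (fun x => x.1 = i) = 1} with hP
  have hPfin : ∀ i n, (P i n).Finite := fun i n =>
    (List.finite_length_eq (α × Bool) n).subset (fun c hc => hc.2.1)
  have hU : ∀ n, {c : List (α × Bool) | FreeGroup.IsCyclicallyReduced c ∧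
      c.length = n ∧ Once c} = ⋃ i, P i n := by
    intro n
    ext c
    simp only [Set.mem_setOf_eq, Set.mem_iUnion, hP]
    constructor
    · rintro ⟨h1, h2, i, hi⟩
      exact ⟨i, h1, h2, hi⟩
    · rintro ⟨i, h1, h2, hi⟩
      exact ⟨h1, h2, i, hi⟩
  set R : ℝ := (Fintype.card α : ℝ) with hRdef
  have hρ : 0 < 2 * R - 3 := by linarith
  set τ : ℝ := 4 * R * (R - 1) / (2 * R - 3) ^ 2 with hτ
  set E : ℕ → ℝ := fun n => ∑ i, ∑ j ∈ Finset.univ.erase i, ((P i n ∩ P j n).ncard : ℝ) with hE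
  have hsum : ∀ n : ℕ, 2 ≤ n → ((∑ i, (P i n).ncard : ℕ) : ℝ) / (n * (2 * R - 3) ^ n) = τ := by
    intro n hn
    obtain ⟨m, rfl⟩ : ∃ m, n = m + 2 := ⟨n - 2, by omega⟩
    have h1 : ∀ i, (P i (m + 2)).ncard =
        (m + 2) * (2 * ((2 * Fintype.card α - 2) * (2 * Fintype.card α - 3) ^ m)) := fun i =>
      hCN1 α i m (by omega)
    rw [Finset.sum_congr rfl (fun i _ => h1 i), Finset.sum_const, Finset.card_univ, smul_eq_mul]
    have e1 : ((2 * Fintype.card α - 2 : ℕ) : ℝ) = 2 * R - 2 := by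
      rw [Nat.cast_sub (by omega)]
      push_cast
      rw [hRdef]
    have e2 : ((2 * Fintype.card α - 3 : ℕ) : ℝ) = 2 * R - 3 := by
      rw [Nat.cast_sub (by omega)]
      push_cast
      rw [hRdef]
    have e3 : ((Fintype.card α * ((m + 2) * (2 * ((2 * Fintype.card α - 2) *
        (2 * Fintype.card α - 3) ^ m))) : ℕ) : ℝ) =
        R * (((m + 2 : ℕ) : ℝ) * (2 * ((2 * R - 2) * (2 * R - 3) ^ m))) := by
      rw [Nat.cast_mul, Nat.cast_mul, Nat.cast_mul, Nat.cast_mul, Nat.cast_pow, e1, e2,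
        ← hRdef]
      norm_num
    rw [e3, hτ, div_eq_div_iff]
    · ring
    · positivity
    · positivity
  have hbound : ∀ i j, i ≠ j → ∃ C : ℝ, ∀ n : ℕ,
      ((P i n ∩ P j n).ncard : ℝ) ≤ C * (2 * R - 3) ^ n := by
    intro i j hij
    have hW := hCN2 α i j hij hr
    set S : Set (List (α × Bool)) := {c : List (α × Bool) | c.IsChain (fun x y => y ≠ nv x) ∧
      c.countP (fun x => x.1 = i) = 1 ∧ c.countP (fun x => x.1 = j) = 1} with hS
    refine ⟨(W (ENNReal.ofReal (z0 α)) S).toReal, ?_⟩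
    intro n
    have h1 := ncard_mul_pow_le (ENNReal.ofReal (z0 α)) S n
    have h2 : (P i n ∩ P j n).ncard ≤ (S ∩ {w | w.length = n}).ncard := by
      apply Set.ncard_le_ncard
      · rintro c ⟨⟨a1, a2, a3⟩, ⟨-, -, a4⟩⟩
        exact ⟨⟨chain_of_reduced a1.isReduced, a3, a4⟩, a2⟩
      · exact (List.finite_length_eq (α × Bool) n).subset Set.inter_subset_right
    have h3 : (((P i n ∩ P j n).ncard : ℕ) : ENNReal) * ENNReal.ofReal (z0 α) ^ n ≤
        W (ENNReal.ofReal (z0 α)) S := by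
      refine le_trans ?_ h1
      gcongr
    have h4 := ENNReal.toReal_mono hW.ne h3
    rw [ENNReal.toReal_mul, ENNReal.toReal_natCast, ENNReal.toReal_pow,
      ENNReal.toReal_ofReal (z0_pos hr).le] at h4
    have hz : z0 α ^ n = ((2 * R - 3) ^ n)⁻¹ := by
      unfold z0
      rw [← hRdef, one_div, inv_pow]
    rw [hz, ← div_eq_mul_inv, div_le_iff₀ (by positivity)] at h4
    exact h4
  have hElim : Tendsto (fun n : ℕ => E n / (n * (2 * R - 3) ^ n)) atTop (nhds 0) := by
    have h1 : ∀ i, ∀ j ∈ Finset.univ.erase i, Tendsto (fun n : ℕ =>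
        ((P i n ∩ P j n).ncard : ℝ) / (n * (2 * R - 3) ^ n)) atTop (nhds 0) := by
      intro i j hj
      obtain ⟨C, hC⟩ := hbound i j (Finset.ne_of_mem_erase hj).symm
      have h2 : Tendsto (fun n : ℕ => C / (n : ℝ)) atTop (nhds 0) :=
        tendsto_const_div_atTop_nhds_zero_nat C
      refine squeeze_zero' (Eventually.of_forall fun n => by positivity) ?_ h2
      filter_upwards [eventually_gt_atTop 0] with n hn
      have hn' : (0 : ℝ) < n := by exact_mod_cast hn
      rw [div_le_div_iff₀ (by positivity) hn']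
      calc ((P i n ∩ P j n).ncard : ℝ) * n ≤ (C * (2 * R - 3) ^ n) * n :=
            mul_le_mul_of_nonneg_right (hC n) hn'.le
        _ = C * (n * (2 * R - 3) ^ n) := by ring
    have h2 : Tendsto (fun n : ℕ => ∑ i, ∑ j ∈ Finset.univ.erase i,
        ((P i n ∩ P j n).ncard : ℝ) / (n * (2 * R - 3) ^ n)) atTop
        (nhds (∑ i : α, ∑ _j ∈ Finset.univ.erase i, (0 : ℝ))) :=
      tendsto_finsetSum _ fun i _ => tendsto_finsetSum _ fun j hj => h1 i j hj
    simp only [Finset.sum_const_zero] at h2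
    refine h2.congr ?_
    intro n
    rw [hE]
    simp only
    rw [Finset.sum_div]
    exact Finset.sum_congr rfl fun i _ => (Finset.sum_div _ _ _).symm
  have hlow : Tendsto (fun n : ℕ => τ - E n / (n * (2 * R - 3) ^ n)) atTop (nhds τ) := by
    have := hElim.const_sub τ
    rwa [sub_zero] at this
  refine tendsto_of_tendsto_of_tendsto_of_le_of_le' hlow tendsto_const_nhds ?_ ?_
  · filter_upwards [eventually_ge_atTop 2] with n hn
    rw [hU n, ← hsum n hn, ← sub_div]
    apply div_le_div_of_nonneg_right _ (by positivity)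
    have h1 := sum_le_union (fun i => P i n) (fun i => hPfin i n)
    have h2 : ((∑ i, (P i n).ncard : ℕ) : ℝ) ≤ ((⋃ i, P i n).ncard : ℝ) + E n := by
      simp only [hE]
      exact_mod_cast h1
    linarith
  · filter_upwards [eventually_ge_atTop 2] with n hn
    rw [hU n, ← hsum n hn]
    apply div_le_div_of_nonneg_right _ (by positivity)
    exact_mod_cast Set.ncard_iUnion_le_of_fintype (fun i => P i n)

end Pool.Agent.Helper86.AP
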