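import Mathlib
import Pool.Agent.Helper86.AP.Goals
import Pool.Agent.Helper35.PX.Rate

/-!
Project AP: the words in which no letter occurs exactly once are negligible.
-/

set_option autoImplicit false

namespace Pool.Agent.Helper86.AP

open FreeGroup Filter Pool.Agent.Helper35.PP Pool.Agent.Helper35.PX
open scoped ENNReal

section

variable {α : Type} [Fintype α] [DecidableEq α]

omit [Fintype α] in
lemma factorClosed_Lang (Λ A B : Finset (α × Bool)) : FactorClosed (Lang Λ A B) := by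
  intro a b c h
  exact ⟨fun x hx => h.1 x (by simp [hx]), (List.IsChain.left_of_append h.2).right_of_append⟩

lemma factorClosed_MI (i : α) (A B : Finset (α × Bool)) : FactorClosed (MI i A B) := by
  intro a b c h
  rcases h with h | h
  · exact Or.inl (factorClosed_Lang _ _ _ a b c h)
  · right
    have e : FreeGroup.invRev (a ++ b ++ c) =
        FreeGroup.invRev c ++ FreeGroup.invRev b ++ FreeGroup.invRev a := by
      rw [FreeGroup.invRev_append, FreeGroup.invRev_append, List.append_assoc]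
    rw [e] at h
    exact factorClosed_Lang _ _ _ _ _ _ h

lemma W_MI_lt_top (hr : 100 ≤ Fintype.card α) {i : α} {A B : Finset (α × Bool)}
    (h : Sides (Zi i) A B) : W (ENNReal.ofReal (z0 α)) (MI i A B) < ⊤ := by
  obtain ⟨hA, hB, hdis, hm, hA1, hB1⟩ := h
  have h1 : W (ENNReal.ofReal (z0 α)) (Lang (Zi i) A B) < ⊤ :=
    lt_of_le_of_lt ((Pool.Agent.Helper88.PX.stmtL α (Zi i) A B hr (Zi_nv i) hA hB hdis hm).2.1
      (Zi_card i) hA1 hB1) ENNReal.ofReal_lt_top
  have hsub : MI i A B ⊆ Lang (Zi i) A B ∪ FreeGroup.invRev ⁻¹' Lang (Zi i) A B := by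
    rintro w (h | h)
    · exact Or.inl h
    · exact Or.inr h
  refine lt_of_le_of_lt ((W_mono hsub).trans (W_union_le _ _ _)) ?_
  refine ENNReal.add_lt_top.2 ⟨h1, lt_of_le_of_lt ?_ h1⟩
  exact W_preimage_le _ _ FreeGroup.invRev_injective (fun w => FreeGroup.invRev_length) _

lemma W_FF_lt_top (h1 : S_SUBM) (h2 : S_WLE) (h3 : S_ADMW) (h4 : S_GENA) (h5 : S_GENB) (h6 : S_NUM)
    (hr : 100 ≤ Fintype.card α) {i : α} {S : Set (List (α × Bool))} {A B : Finset (α × Bool)}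
    (hc : Cls i S A B) :
    W (ENNReal.ofReal (z0 α)) (TS i A B S ∪ FF i (TS i A B S) (MI i A B)) < ⊤ := by
  have hz := z0_pos hr
  have hz1 := z0_lt hr
  have hR : (100 : ℝ) ≤ Fintype.card α := by exact_mod_cast hr
  set R : ℝ := (Fintype.card α : ℝ) with hRdef
  have hq : 0 < 2 * R - 3 := by linarith
  have hz0e : (2 * R - 3) * z0 α = 1 := by
    unfold z0
    rw [← hRdef]
    field_simp
  obtain ⟨z3, hz3, hW3⟩ := h1 (α × Bool) (MI i A B) (z0 α) hz (factorClosed_MI i A B)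
    (W_MI_lt_top hr hc.sides)
  set z2 := min z3 (2 * z0 α) with hz2
  have hz02 : z0 α < z2 := lt_min hz3 (by linarith)
  have hz2' : z2 ≤ 2 * z0 α := min_le_right _ _
  set z1 := (z0 α + z2) / 2 with hz1def
  have hz01 : z0 α < z1 := by rw [hz1def]; linarith
  have hz12 : z1 < z2 := by rw [hz1def]; linarith
  have hsmall : z0 α ≤ 1 / 197 := by
    unfold z0
    rw [← hRdef]
    exact one_div_le_one_div_of_le (by norm_num) (by linarith)
  have hW2 : W (ENNReal.ofReal z2) (MI i A B) < ⊤ :=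
    lt_of_le_of_lt (W_mono_z (ENNReal.ofReal_le_ofReal (min_le_left _ _)) _) hW3
  have hLE : W (ENNReal.ofReal z1) (LE (MI i A B)) < ⊤ :=
    h2 (α × Bool) (MI i A B) z1 z2 (by linarith) hz12 (by linarith) hW2
  have hWQ : WQ (ENNReal.ofReal (z0 α)) (ADMS i (MI i A B)) < ⊤ := by
    refine h3 α i (MI i A B) (z0 α) z1 (by omega) hz hz01 (by linarith) ?_ hLE
    rw [← hRdef]
    have h7 : z1 ≤ 2 * z0 α := by linarith
    have h8 : z1 ^ 2 ≤ (2 * z0 α) ^ 2 := pow_le_pow_left₀ (by linarith) h7 2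
    calc (2 * R - 3) * z1 ^ 2 ≤ (2 * R - 3) * (2 * z0 α) ^ 2 :=
          mul_le_mul_of_nonneg_left h8 hq.le
      _ = 4 * ((2 * R - 3) * z0 α) * z0 α := by ring
      _ < 1 := by rw [hz0e]; linarith
  have hFF : W (ENNReal.ofReal (z0 α)) (FF i (TS i A B S) (MI i A B)) < ⊤ :=
    h5 h4 α i (TS i A B S) (MI i A B) (z0 α) (70 * Fintype.card α) hz hz1 (by positivity) hc.bound
      (h6 α hr) hWQ
  refine lt_of_le_of_lt (W_union_le _ _ _) (ENNReal.add_lt_top.2 ⟨?_, hFF⟩)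
  exact lt_of_le_of_lt hc.bound ENNReal.ofReal_lt_top

omit [Fintype α] in
lemma isCyclicallyReduced_of_isRotated {c c' : List (α × Bool)} (h : c' ~r c)
    (hc : FreeGroup.IsCyclicallyReduced c) : FreeGroup.IsCyclicallyReduced c' := by
  obtain ⟨n, hn⟩ := h.symm
  rw [← hn]
  have h2 : c.rotate n = c.drop (n % c.length) ++ c.take (n % c.length) :=
    List.rotate_eq_drop_append_take_mod
  rw [h2]
  apply rotate_cyc
  rw [List.take_append_drop]
  exact hc

/-- words over the dictionary -/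
lemma exists_rotated (hTRI : S_TRI) (hPA : S_PA) (hPB : S_PB) (hPC : S_PC) (hLEL : S_LEL)
    (hSIDE : S_SIDE) (hCOMB : S_COMB) (hST : S_ST) (hREP : S_REP) (hLNK : S_LNK) (hMRG : S_MRG)
    {i : α} {S : Set (List (α × Bool))} {A B : Finset (α × Bool)} (hcls : Cls i S A B)
    {c : List (α × Bool)} (hc : FreeGroup.IsCyclicallyReduced c) (hS : ∀ c', c' ~r c → c' ∈ S)
    {a d : FreeGroup α} (ha : a ∈ ZS i) (hd : d ∈ ZS i)
    (hTr : ∀ (m : ℕ) (s : Fin (m + 1) → Bool) (b : Fin (m + 1) → List (α × Bool)),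
      cw i m s b ~r c → (∀ k, ∀ x ∈ b k, x.1 ≠ i) → Tr i A B a d m s b)
    (hn0 : c.countP (fun x => x.1 = i) ≠ 0) (hn1 : c.countP (fun x => x.1 = i) ≠ 1) :
    ∃ c', c' ~r c ∧ c' ∈ TS i A B S ∪ FF i (TS i A B S) (MI i A B) := by
  obtain ⟨m, hm⟩ : ∃ m, c.countP (fun x => x.1 = i) = m + 1 :=
    ⟨c.countP (fun x => x.1 = i) - 1, by omega⟩
  have hm1 : 1 ≤ m := by omega
  obtain ⟨s, b, hb, hrot⟩ := hREP α i m c hm
  have hcyc := isCyclicallyReduced_of_isRotated hrot hc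
  obtain ⟨P, v, hPv⟩ := hLNK hTRI α i A B a d m s b ha hd hm1 hb hcyc (hTr m s b hrot hb)
  obtain ⟨l1, l2, m1, m2, hl1, hm1', hP1, hP2, hj, hk, hADM⟩ :=
    hST (α × Bool) (MI i A B) m a.toWord d.toWord P (factorClosed_MI i A B) hm1 hSIDE hPA hPB hPC
      hLEL hCOMB
  have hZr : ∀ g : FreeGroup α, g ∈ ZS i → g.toWord ∈ Zr (Zi i) := by
    intro g hg
    exact ⟨fun x hx => mem_Zi.2 (hg x hx), chain_of_reduced isReduced_toWord⟩
  have hpre1 : ∀ j, P.P (j, true) <+: a.toWord := by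
    intro j
    have h := P.dec (j, true)
    simp only [if_true] at h
    exact ⟨P.C (j, true) ++ P.X (j, true), by rw [← List.append_assoc]; exact h.symm⟩
  have hpre2 : ∀ j, P.P (j, false) <+: d.toWord := by
    intro j
    have h := P.dec (j, false)
    simp only [Bool.false_eq_true, if_false] at h
    exact ⟨P.C (j, false) ++ P.X (j, false), by rw [← List.append_assoc]; exact h.symm⟩
  rcases hMRG α i A B S (MI i A B) m s b P.P v a.toWord d.toWord l1 l2 m1 m2 hcls.fc (hZr a ha)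
    (hZr d hd) hl1 hm1' hPv hpre1 hpre2 hP1 hP2 hj hk hADM (fun c' hc' => hS c' (hc'.trans hrot))
    with h | ⟨c', h1, h2⟩
  · exact ⟨_, hrot, Or.inl h⟩
  · exact ⟨c', h1.trans hrot, Or.inr h2⟩

/-- the words in which no letter occurs exactly once -/
def NW (α : Type) [DecidableEq α] (n : ℕ) : Set (List (α × Bool)) :=
  {c | FreeGroup.IsCyclicallyReduced c ∧ c.length = n ∧ AdmX (FreeGroup.mk c) ∧ ¬ Once c}

theorem tendsto_NW (hSUBM : S_SUBM) (hWLE : S_WLE) (hADMW : S_ADMW) (hGENA : S_GENA)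
    (hGENB : S_GENB) (hNUM : S_NUM) (hTRI : S_TRI) (hPA : S_PA) (hPB : S_PB) (hPC : S_PC)
    (hLEL : S_LEL) (hSIDE : S_SIDE) (hCOMB : S_COMB) (hST : S_ST) (hREP : S_REP) (hLNK : S_LNK)
    (hMRG : S_MRG) (hSEC : S_SEC) (hCV : S_CV) (hNG1 : S_NG1) (hNG2 : S_NG2)
    (hr : 100 ≤ Fintype.card α) :
    Tendsto (fun n : ℕ => ((NW α n).ncard : ℝ) * (z0 α) ^ n / n) atTop (nhds 0) := by
  classical
  have hz := z0_pos hr
  obtain ⟨K, hK, ι, hι, i, SS, A, B, hcls, hcov⟩ := hCV hSEC α hr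
  have _ : Fintype ι := Fintype.ofFinite ι
  set G : ι → Set (List (α × Bool)) := fun t =>
    TS (i t) (A t) (B t) (SS t) ∪ FF (i t) (TS (i t) (A t) (B t) (SS t)) (MI (i t) (A t) (B t))
    with hG
  have hGW : ∀ t, W (ENNReal.ofReal (z0 α)) (G t) < ⊤ := fun t =>
    W_FF_lt_top hSUBM hWLE hADMW hGENA hGENB hNUM hr (hcls t)
  set RR' : Set (List (α × Bool)) → ℕ → Set (List (α × Bool)) := fun G n =>
    {c | c.length = n ∧ ∃ c', c' ~r c ∧ c' ∈ G} with hRR
  set NI : α → ℕ → Set (List (α × Bool)) := fun j n =>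
    {c | c.IsChain (fun x y => y ≠ nv x) ∧ c.length = n ∧ ∀ x ∈ c, x.1 ≠ j} with hNI
  have hfin : ∀ (X : Set (List (α × Bool))) (n : ℕ), (∀ c ∈ X, c.length = n) → X.Finite :=
    fun X n h => (List.finite_length_eq (α × Bool) n).subset h
  have hsub : ∀ n, NW α n ⊆ RR' K n ∪ ⋃ t, (NI (i t) n ∪ RR' (G t) n) := by
    rintro n c ⟨h1, h2, h3, h4⟩
    rcases hcov c h1 h3 with h | ⟨t, hS, a, ha, d, hd, hTr⟩
    · exact Or.inl ⟨h2, c, List.IsRotated.refl c, h⟩
    · right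
      rw [Set.mem_iUnion]
      refine ⟨t, ?_⟩
      by_cases hn0 : c.countP (fun x => x.1 = i t) = 0
      · left
        refine ⟨chain_of_reduced h1.isReduced, h2, ?_⟩
        rw [List.countP_eq_zero] at hn0
        intro x hx
        simpa using hn0 x hx
      · right
        have hn1 : c.countP (fun x => x.1 = i t) ≠ 1 := fun h => h4 ⟨i t, h⟩
        exact ⟨h2, exists_rotated hTRI hPA hPB hPC hLEL hSIDE hCOMB hST hREP hLNK hMRG (hcls t) h1
          hS ha hd hTr hn0 hn1⟩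
  have hle : ∀ n, ((NW α n).ncard : ℝ) ≤ (RR' K n).ncard +
      ∑ t, (((NI (i t) n).ncard : ℝ) + (RR' (G t) n).ncard) := by
    intro n
    have f1 : (⋃ t, (NI (i t) n ∪ RR' (G t) n)).Finite := by
      apply hfin _ n
      intro c hc
      obtain ⟨t, h | h⟩ := Set.mem_iUnion.1 hc
      · exact h.2.1
      · exact h.1
    have f2 : (RR' K n ∪ ⋃ t, (NI (i t) n ∪ RR' (G t) n)).Finite :=
      (hfin (RR' K n) n (fun c hc => hc.1)).union f1
    have e1 : (NW α n).ncard ≤ (RR' K n).ncard + ∑ t, ((NI (i t) n).ncard + (RR' (G t) n).ncard) := by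
      refine (Set.ncard_le_ncard (hsub n) f2).trans ((Set.ncard_union_le _ _).trans ?_)
      refine Nat.add_le_add_left ?_ _
      refine le_trans (Set.ncard_iUnion_le_of_fintype _) ?_
      exact Finset.sum_le_sum fun t _ => Set.ncard_union_le _ _
    exact_mod_cast e1
  have hlim : Tendsto (fun n : ℕ => ((RR' K n).ncard : ℝ) * (z0 α) ^ n / n +
      ∑ t, (((NI (i t) n).ncard : ℝ) * (z0 α) ^ n / n +
        ((RR' (G t) n).ncard : ℝ) * (z0 α) ^ n / n)) atTop (nhds (0 + ∑ _t : ι, (0 + 0 : ℝ))) := by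
    apply (hNG1 (α × Bool) K (z0 α) hz hK).add
    apply tendsto_finsetSum
    intro t _
    exact (hNG2 α (i t) hr).add (hNG1 (α × Bool) (G t) (z0 α) hz (hGW t))
  simp only [add_zero, Finset.sum_const_zero] at hlim
  refine squeeze_zero (fun n => by positivity) (fun n => ?_) hlim
  have hpos : 0 ≤ (z0 α) ^ n / (n : ℝ) := by positivity
  have e2 : ((RR' K n).ncard : ℝ) * (z0 α) ^ n / n + ∑ t, (((NI (i t) n).ncard : ℝ) * (z0 α) ^ n / n +
      ((RR' (G t) n).ncard : ℝ) * (z0 α) ^ n / n) =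
      ((RR' K n).ncard + ∑ t, (((NI (i t) n).ncard : ℝ) + (RR' (G t) n).ncard)) *
        ((z0 α) ^ n / n) := by
    rw [add_mul, Finset.sum_mul]
    congr 1
    · ring
    · apply Finset.sum_congr rfl
      intro t _
      ring
  rw [e2, mul_div_assoc]
  exact mul_le_mul_of_nonneg_right (hle n) hpos

end

end Pool.Agent.Helper86.AP
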