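import Mathlib
import Pool.Agent.Helper86.AP.Neg

/-!
Project AP: the asymptotic number of potentially positive elements.
-/

set_option autoImplicit false

namespace Pool.Agent.Helper86.AP

open FreeGroup Filter Pool.Agent.Helper35.PP Pool.Agent.Helper35.PX
open scoped ENNReal

section

variable {α : Type} [DecidableEq α]

lemma mk_reduceCyclically (u : FreeGroup α) :
    u = FreeGroup.mk (FreeGroup.reduceCyclically.conjugator u.toWord) *
      FreeGroup.mk (FreeGroup.reduceCyclically u.toWord) *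
      (FreeGroup.mk (FreeGroup.reduceCyclically.conjugator u.toWord))⁻¹ := by
  have e := FreeGroup.reduceCyclically.conj_conjugator_reduceCyclically u.toWord
  rw [FreeGroup.inv_mk, FreeGroup.mul_mk, FreeGroup.mul_mk, e, FreeGroup.mk_toWord]

omit [DecidableEq α] in
lemma conj_apply_symm (g c : FreeGroup α) : MulAut.conj g⁻¹ (g * c * g⁻¹) = c := by
  rw [MulAut.conj_apply]
  group

lemma PPos.conj {c : FreeGroup α} (h : PPos c) (g : FreeGroup α) : PPos (g * c * g⁻¹) := by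
  obtain ⟨f, hf⟩ := h
  refine ⟨(MulAut.conj g⁻¹).trans f, ?_⟩
  rw [MulEquiv.trans_apply, conj_apply_symm]
  exact hf

lemma ppos_iff (u : FreeGroup α) :
    PPos u ↔ PPos (FreeGroup.mk (FreeGroup.reduceCyclically u.toWord)) := by
  have e := mk_reduceCyclically u
  generalize FreeGroup.mk (FreeGroup.reduceCyclically u.toWord) = c at e ⊢
  generalize FreeGroup.mk (FreeGroup.reduceCyclically.conjugator u.toWord) = g at e
  constructor
  · intro h
    have h2 := h.conj g⁻¹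
    rw [e] at h2
    have e2 : g⁻¹ * (g * c * g⁻¹) * g⁻¹⁻¹ = c := by group
    rwa [e2] at h2
  · intro h
    rw [e]
    exact h.conj g

omit [DecidableEq α] in
lemma Prim.conj {c : FreeGroup α} (h : Prim c) (g : FreeGroup α) : Prim (g * c * g⁻¹) := by
  obtain ⟨f, i, rfl⟩ := h
  refine ⟨f.trans (MulAut.conj g), i, ?_⟩
  rw [MulEquiv.trans_apply, MulAut.conj_apply]

lemma Prim.ppos {c : FreeGroup α} (h : Prim c) : PPos c := by
  obtain ⟨f, i, rfl⟩ := h
  refine ⟨f.symm, ?_⟩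
  rw [MulEquiv.symm_apply_apply]
  intro x hx
  rw [FreeGroup.toWord_of, List.mem_singleton] at hx
  rw [hx]

lemma Once.ne_nil {c : List (α × Bool)} (h : Once c) : c ≠ [] := by
  rintro rfl
  obtain ⟨i, hi⟩ := h
  simp at hi

/-- nonempty cyclically reduced potentially positive words -/
def C1 (α : Type) [DecidableEq α] : Set (List (α × Bool)) :=
  {c | FreeGroup.IsCyclicallyReduced c ∧ c ≠ [] ∧ PPos (FreeGroup.mk c)}

/-- cyclically reduced words with a letter occurring exactly once -/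
def C2 (α : Type) [DecidableEq α] : Set (List (α × Bool)) :=
  {c | FreeGroup.IsCyclicallyReduced c ∧ Once c}

/-- number of words of length `n` in `C` -/
noncomputable def TT (C : Set (List (α × Bool))) (n : ℕ) : ℝ :=
  ({c : List (α × Bool) | c ∈ C ∧ c.length = n}.ncard : ℝ)

/-- number of elements of length `n` with cyclic reduction in `C` -/
noncomputable def UU (C : Set (List (α × Bool))) (n : ℕ) : ℝ :=
  ({u : FreeGroup α | u.norm = n ∧ FreeGroup.reduceCyclically u.toWord ∈ C}.ncard : ℝ)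

lemma ncard_fiber {X Y : Type} (S : Set (X × Y)) (T : Set Y) (N : ℕ) (hS : S.Finite)
    (hT : T.Finite) (h1 : ∀ t ∈ S, t.2 ∈ T) (h2 : ∀ c ∈ T, {g | (g, c) ∈ S}.ncard = N) :
    S.ncard = T.ncard * N := by
  classical
  rw [Set.ncard_eq_toFinset_card S hS, Set.ncard_eq_toFinset_card T hT]
  rw [Finset.card_eq_sum_card_fiberwise (f := Prod.snd) (t := hT.toFinset)]
  · rw [Finset.sum_const_nat (m := N)]
    intro c hc
    rw [Set.Finite.mem_toFinset] at hc
    rw [← h2 c hc]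
    have hfin : {g | (g, c) ∈ S}.Finite := by
      apply Set.Finite.preimage _ hS
      intro a _ b _ hab
      simpa using hab
    rw [Set.ncard_eq_toFinset_card _ hfin]
    symm
    apply Finset.card_bij (fun g _ => (g, c))
    · intro g hg
      rw [Set.Finite.mem_toFinset] at hg
      rw [Finset.mem_filter, Set.Finite.mem_toFinset]
      exact ⟨hg, rfl⟩
    · intro a _ b _ hab
      simpa using hab
    · rintro ⟨g, c'⟩ ht
      rw [Finset.mem_filter, Set.Finite.mem_toFinset] at ht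
      obtain ⟨ht1, ht2⟩ := ht
      simp only at ht2
      subst ht2
      exact ⟨g, by rw [Set.Finite.mem_toFinset]; exact ht1, rfl⟩
  · intro t ht
    simp only [Set.Finite.coe_toFinset] at ht ⊢
    exact h1 t ht

variable [Fintype α]

lemma UU_eq (hCJ1 : S_CJ1) (hCJ2 : S_CJ2) (hr : 2 ≤ Fintype.card α) {C : Set (List (α × Bool))}
    (hC : ∀ c ∈ C, FreeGroup.IsCyclicallyReduced c ∧ c ≠ []) (n : ℕ) :
    UU C n = TT C n + ∑ k ∈ Finset.range (n / 2), (2 * (Fintype.card α : ℝ) - 2) *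
      (2 * (Fintype.card α : ℝ) - 1) ^ k * TT C (n - 2 * (k + 1)) := by
  have hfin : ∀ m : ℕ, {c : List (α × Bool) | c ∈ C ∧ c.length = m}.Finite := fun m =>
    (List.finite_length_eq (α × Bool) m).subset (fun c hc => hc.2)
  have hfin2 : ∀ k m : ℕ, {t : List (α × Bool) × List (α × Bool) | t.1.length = k ∧ t.2 ∈ C ∧
      t.2.length = m ∧ FreeGroup.IsReduced (t.1 ++ t.2 ++ FreeGroup.invRev t.1)}.Finite := by
    intro k m
    apply ((List.finite_length_eq (α × Bool) k).prod (List.finite_length_eq (α × Bool) m)).subset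
    intro t ht
    exact ⟨ht.1, ht.2.2.1⟩
  have hz : {t : List (α × Bool) × List (α × Bool) | t.1.length = 0 ∧ t.2 ∈ C ∧
      t.2.length = n - 2 * 0 ∧ FreeGroup.IsReduced (t.1 ++ t.2 ++ FreeGroup.invRev t.1)}.ncard =
      {c : List (α × Bool) | c ∈ C ∧ c.length = n}.ncard * 1 := by
    apply ncard_fiber _ _ _ (hfin2 _ _) (hfin _)
    · intro t ht
      exact ⟨ht.2.1, by simpa using ht.2.2.1⟩
    · intro c hc
      have : {g : List (α × Bool) | (g, c) ∈ {t : List (α × Bool) × List (α × Bool) |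
          t.1.length = 0 ∧ t.2 ∈ C ∧ t.2.length = n - 2 * 0 ∧
          FreeGroup.IsReduced (t.1 ++ t.2 ++ FreeGroup.invRev t.1)}} = {[]} := by
        ext g
        simp only [Set.mem_setOf_eq, Set.mem_singleton_iff]
        constructor
        · intro h
          exact List.length_eq_zero_iff.1 h.1
        · rintro rfl
          refine ⟨rfl, hc.1, by simpa using hc.2, ?_⟩
          simpa using (hC c hc.1).1.isReduced
      rw [this, Set.ncard_singleton]
  have hs : ∀ k : ℕ, {t : List (α × Bool) × List (α × Bool) | t.1.length = k + 1 ∧ t.2 ∈ C ∧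
      t.2.length = n - 2 * (k + 1) ∧
      FreeGroup.IsReduced (t.1 ++ t.2 ++ FreeGroup.invRev t.1)}.ncard =
      {c : List (α × Bool) | c ∈ C ∧ c.length = n - 2 * (k + 1)}.ncard *
        ((2 * Fintype.card α - 2) * (2 * Fintype.card α - 1) ^ k) := by
    intro k
    apply ncard_fiber _ _ _ (hfin2 _ _) (hfin _)
    · intro t ht
      exact ⟨ht.2.1, ht.2.2.1⟩
    · intro c hc
      rw [← hCJ2 α c k hr (hC c hc.1).1 (hC c hc.1).2]
      congr 1
      ext g
      simp only [Set.mem_setOf_eq]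
      constructor
      · intro h
        exact ⟨h.1, h.2.2.2⟩
      · intro h
        exact ⟨h.1, hc.1, hc.2, h.2⟩
  unfold UU TT
  rw [hCJ1 α C n hC, Finset.sum_range_succ']
  rw [hz, Finset.sum_congr rfl (fun k _ => hs k)]
  push_cast
  rw [mul_one, add_comm]
  congr 1
  apply Finset.sum_congr rfl
  intro k _
  rw [Nat.cast_sub (by omega), Nat.cast_sub (by omega)]
  push_cast
  ring

lemma ninv (hr : 100 ≤ Fintype.card α) (x : ℝ) (n : ℕ) :
    x * (z0 α) ^ n / n = x / (n * (2 * (Fintype.card α : ℝ) - 3) ^ n) := by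
  have hR : (100 : ℝ) ≤ Fintype.card α := by exact_mod_cast hr
  have hq : (2 * (Fintype.card α : ℝ) - 3) ≠ 0 := by
    have : 0 < 2 * (Fintype.card α : ℝ) - 3 := by linarith
    exact this.ne'
  unfold z0
  rw [one_div, inv_pow, div_eq_mul_inv, div_eq_mul_inv, mul_inv]
  ring

omit [DecidableEq α] [Fintype α] in
lemma const_eq {R : ℝ} (hR : 100 ≤ R) : 4 * R * (R - 1) / (2 * R - 3) ^ 2 *
    (1 + (2 * R - 2) / ((2 * R - 3) ^ 2 - (2 * R - 1))) =
    8 * R * (R - 1) * (R - 2) / ((2 * R - 3) ^ 2 * (2 * R - 5)) := by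
  have e1 : (2 * R - 3) ^ 2 - (2 * R - 1) = (2 * R - 2) * (2 * R - 5) := by ring
  have h1 : 2 * R - 2 ≠ 0 := by
    have : 0 < 2 * R - 2 := by linarith
    exact this.ne'
  have h2 : 2 * R - 5 ≠ 0 := by
    have : 0 < 2 * R - 5 := by linarith
    exact this.ne'
  have h3 : 2 * R - 3 ≠ 0 := by
    have : 0 < 2 * R - 3 := by linarith
    exact this.ne'
  have e2 : 1 + (2 * R - 2) / ((2 * R - 2) * (2 * R - 5)) = 2 * (R - 2) / (2 * R - 5) := by
    rw [div_mul_cancel_left₀ h1, eq_div_iff h2, add_mul, inv_mul_cancel₀ h2]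
    ring
  rw [e1, e2, div_mul_div_comm]
  congr 1
  ring

theorem limits (hSUBM : S_SUBM) (hWLE : S_WLE) (hADMW : S_ADMW) (hGENA : S_GENA)
    (hGENB : S_GENB) (hNUM : S_NUM) (hTRI : S_TRI) (hPA : S_PA) (hPB : S_PB) (hPC : S_PC)
    (hLEL : S_LEL) (hSIDE : S_SIDE) (hCOMB : S_COMB) (hST : S_ST) (hREP : S_REP) (hLNK : S_LNK)
    (hMRG : S_MRG) (hSEC : S_SEC) (hCV : S_CV) (hNG1 : S_NG1) (hNG2 : S_NG2) (hCN1 : S_CN1)
    (hCN2 : S_CN2) (hCN3 : S_CN3) (hCJ1 : S_CJ1) (hCJ2 : S_CJ2) (hLIM : S_LIM) (hPRI : S_PRI)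
    (hr : 100 ≤ Fintype.card α) :
    Tendsto (fun n : ℕ => UU (C1 α) n / (n * (2 * (Fintype.card α : ℝ) - 3) ^ n)) atTop
      (nhds (8 * Fintype.card α * (Fintype.card α - 1) * (Fintype.card α - 2) /
        ((2 * (Fintype.card α : ℝ) - 3) ^ 2 * (2 * (Fintype.card α : ℝ) - 5)))) ∧
    Tendsto (fun n : ℕ => UU (C2 α) n / (n * (2 * (Fintype.card α : ℝ) - 3) ^ n)) atTop
      (nhds (8 * Fintype.card α * (Fintype.card α - 1) * (Fintype.card α - 2) /
        ((2 * (Fintype.card α : ℝ) - 3) ^ 2 * (2 * (Fintype.card α : ℝ) - 5)))) := by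
  have hR : (100 : ℝ) ≤ Fintype.card α := by exact_mod_cast hr
  have hfin : ∀ (X : Set (List (α × Bool))) (n : ℕ), (∀ c ∈ X, c.length = n) → X.Finite :=
    fun X n h => (List.finite_length_eq (α × Bool) n).subset h
  have hT2 : Tendsto (fun n : ℕ => TT (C2 α) n / (n * (2 * (Fintype.card α : ℝ) - 3) ^ n)) atTop
      (nhds (4 * Fintype.card α * (Fintype.card α - 1) / (2 * (Fintype.card α : ℝ) - 3) ^ 2)) := by
    refine (hCN3 hCN1 hCN2 α hr).congr ?_
    intro n
    congr 3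
    unfold C2
    ext c
    simp only [Set.mem_setOf_eq]
    tauto
  have hneg := tendsto_NW hSUBM hWLE hADMW hGENA hGENB hNUM hTRI hPA hPB hPC hLEL hSIDE hCOMB hST
    hREP hLNK hMRG hSEC hCV hNG1 hNG2 hr
  have hle1 : ∀ n, TT (C2 α) n ≤ TT (C1 α) n := by
    intro n
    unfold TT
    have : {c : List (α × Bool) | c ∈ C2 α ∧ c.length = n} ⊆
        {c : List (α × Bool) | c ∈ C1 α ∧ c.length = n} := by
      rintro c ⟨⟨h1, h2⟩, h3⟩
      refine ⟨⟨h1, h2.ne_nil, ?_⟩, h3⟩
      obtain ⟨i, hi⟩ := h2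
      exact (hPRI α i c hi).ppos
    exact_mod_cast Set.ncard_le_ncard this (hfin _ n (fun c hc => hc.2))
  have hle2 : ∀ n, TT (C1 α) n ≤ TT (C2 α) n + (NW α n).ncard := by
    intro n
    unfold TT
    have : {c : List (α × Bool) | c ∈ C1 α ∧ c.length = n} ⊆
        {c : List (α × Bool) | c ∈ C2 α ∧ c.length = n} ∪ NW α n := by
      rintro c ⟨⟨h1, h2, f, hf⟩, h3⟩
      by_cases h : Once c
      · exact Or.inl ⟨⟨h1, h⟩, h3⟩
      · exact Or.inr ⟨h1, h3, admX_of_pos f hf, h⟩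
    have h2 := Set.ncard_le_ncard this ((hfin _ n (fun c hc => hc.2)).union
      (hfin (NW α n) n (fun c hc => hc.2.1)))
    exact_mod_cast h2.trans (Set.ncard_union_le _ _)
  have hpos : ∀ n : ℕ, 0 ≤ (n : ℝ) * (2 * (Fintype.card α : ℝ) - 3) ^ n := by
    intro n
    have : 0 ≤ 2 * (Fintype.card α : ℝ) - 3 := by linarith
    positivity
  have hT1 : Tendsto (fun n : ℕ => TT (C1 α) n / (n * (2 * (Fintype.card α : ℝ) - 3) ^ n)) atTop
      (nhds (4 * Fintype.card α * (Fintype.card α - 1) / (2 * (Fintype.card α : ℝ) - 3) ^ 2)) := by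
    have hup : Tendsto (fun n : ℕ => TT (C2 α) n / (n * (2 * (Fintype.card α : ℝ) - 3) ^ n) +
        ((NW α n).ncard : ℝ) * (z0 α) ^ n / n) atTop
        (nhds (4 * Fintype.card α * (Fintype.card α - 1) / (2 * (Fintype.card α : ℝ) - 3) ^ 2)) := by
      have := hT2.add hneg
      rwa [add_zero] at this
    refine tendsto_of_tendsto_of_tendsto_of_le_of_le hT2 hup ?_ ?_
    · intro n
      exact div_le_div_of_nonneg_right (hle1 n) (hpos n)
    · intro n
      simp only
      rw [ninv hr, ← add_div]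
      exact div_le_div_of_nonneg_right (hle2 n) (hpos n)
  have hconst : 4 * (Fintype.card α : ℝ) * (Fintype.card α - 1) / (2 * (Fintype.card α : ℝ) - 3) ^ 2 *
      (1 + (2 * (Fintype.card α : ℝ) - 2) / ((2 * (Fintype.card α : ℝ) - 3) ^ 2 -
        (2 * (Fintype.card α : ℝ) - 1))) = 8 * Fintype.card α * (Fintype.card α - 1) *
        (Fintype.card α - 2) /
        ((2 * (Fintype.card α : ℝ) - 3) ^ 2 * (2 * (Fintype.card α : ℝ) - 5)) := by
    exact const_eq hR
  have key : ∀ C : Set (List (α × Bool)), (∀ c ∈ C, FreeGroup.IsCyclicallyReduced c ∧ c ≠ []) →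
      Tendsto (fun n : ℕ => TT C n / (n * (2 * (Fintype.card α : ℝ) - 3) ^ n)) atTop
        (nhds (4 * Fintype.card α * (Fintype.card α - 1) / (2 * (Fintype.card α : ℝ) - 3) ^ 2)) →
      Tendsto (fun n : ℕ => UU C n / (n * (2 * (Fintype.card α : ℝ) - 3) ^ n)) atTop
      (nhds (8 * Fintype.card α * (Fintype.card α - 1) * (Fintype.card α - 2) /
        ((2 * (Fintype.card α : ℝ) - 3) ^ 2 * (2 * (Fintype.card α : ℝ) - 5)))) := by
    intro C hC hT
    rw [← hconst]
    refine hLIM (TT C) (UU C) (2 * (Fintype.card α : ℝ) - 2) (2 * (Fintype.card α : ℝ) - 1)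
      (2 * (Fintype.card α : ℝ) - 3) _ (by linarith) (by linarith) (by linarith) (by nlinarith) ?_
      ?_ (UU_eq hCJ1 hCJ2 (by omega) hC) hT
    · unfold TT
      have : {c : List (α × Bool) | c ∈ C ∧ c.length = 0} = ∅ := by
        ext c
        simp only [Set.mem_setOf_eq, Set.mem_empty_iff_false, iff_false, not_and]
        intro h1 h2
        exact (hC c h1).2 (List.length_eq_zero_iff.1 h2)
      rw [this]
      simp
    · intro n
      unfold TT
      positivity
  refine ⟨key _ (fun c hc => ⟨hc.1, hc.2.1⟩) hT1, key _ (fun c hc => ⟨hc.1, hc.2.ne_nil⟩) hT2⟩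

end

/-- the number of potentially positive elements of length `n` -/
lemma UU_C1 (r : ℕ) {n : ℕ} (hn : n ≠ 0) : UU (C1 (Fin r)) n = (pp r n : ℝ) := by
  unfold UU pp
  congr 2
  ext u
  simp only [Set.mem_setOf_eq]
  constructor
  · rintro ⟨h1, h2⟩
    exact ⟨h1, (ppos_iff u).2 h2.2.2⟩
  · rintro ⟨h1, h2⟩
    refine ⟨h1, FreeGroup.reduceCyclically.isCyclicallyReduced isReduced_toWord, ?_,
      (ppos_iff u).1 h2⟩
    intro h3
    apply hn
    have e := mk_reduceCyclically u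
    rw [h3] at e
    have e1 : FreeGroup.mk ([] : List (Fin r × Bool)) = 1 := rfl
    rw [e1, mul_one, mul_inv_cancel] at e
    rw [← h1, e]
    exact FreeGroup.norm_one

/-- primitive elements with a generator occurring exactly once after cyclic reduction -/
lemma UU_C2 (hPRI : S_PRI) (r n : ℕ) : UU (C2 (Fin r)) n = ({u : FreeGroup (Fin r) | u.norm = n ∧
    PPos u ∧ Prim u ∧ Once (FreeGroup.reduceCyclically u.toWord)}.ncard : ℝ) := by
  unfold UU
  congr 2
  ext u
  simp only [Set.mem_setOf_eq]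
  constructor
  · rintro ⟨h1, h2, h3⟩
    have hp : Prim (FreeGroup.mk (FreeGroup.reduceCyclically u.toWord)) := by
      obtain ⟨i, hi⟩ := h3
      exact hPRI (Fin r) i _ hi
    have e := mk_reduceCyclically u
    have hpu : Prim u := by
      rw [e]
      exact hp.conj _
    exact ⟨h1, hpu.ppos, hpu, h3⟩
  · rintro ⟨h1, -, -, h3⟩
    exact ⟨h1, FreeGroup.reduceCyclically.isCyclicallyReduced isReduced_toWord, h3⟩

/-- **Main theorem**, with the packets as hypotheses. -/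
theorem main (hSUBM : S_SUBM) (hWLE : S_WLE) (hADMW : S_ADMW) (hGENA : S_GENA)
    (hGENB : S_GENB) (hNUM : S_NUM) (hTRI : S_TRI) (hPA : S_PA) (hPB : S_PB) (hPC : S_PC)
    (hLEL : S_LEL) (hSIDE : S_SIDE) (hCOMB : S_COMB) (hST : S_ST) (hREP : S_REP) (hLNK : S_LNK)
    (hMRG : S_MRG) (hSEC : S_SEC) (hCV : S_CV) (hNG1 : S_NG1) (hNG2 : S_NG2) (hCN1 : S_CN1)
    (hCN2 : S_CN2) (hCN3 : S_CN3) (hCJ1 : S_CJ1) (hCJ2 : S_CJ2) (hLIM : S_LIM) (hPRI : S_PRI)
    {r : ℕ} (hr : 100 ≤ r) :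
    Tendsto (fun n : ℕ => (pp r n : ℝ) / (n * (2 * (r : ℝ) - 3) ^ n)) atTop
      (nhds (8 * r * (r - 1) * (r - 2) / ((2 * (r : ℝ) - 3) ^ 2 * (2 * (r : ℝ) - 5)))) ∧
    Tendsto (fun n : ℕ => ({u : FreeGroup (Fin r) | u.norm = n ∧
      PPos u ∧ Prim u ∧ Once (FreeGroup.reduceCyclically u.toWord)}.ncard : ℝ) / pp r n) atTop
      (nhds 1) := by
  have hcard : Fintype.card (Fin r) = r := Fintype.card_fin r
  have hR : (100 : ℝ) ≤ r := by exact_mod_cast hr
  obtain ⟨h1, h2⟩ := limits (α := Fin r) hSUBM hWLE hADMW hGENA hGENB hNUM hTRI hPA hPB hPC hLEL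
    hSIDE hCOMB hST hREP hLNK hMRG hSEC hCV hNG1 hNG2 hCN1 hCN2 hCN3 hCJ1 hCJ2 hLIM hPRI
    (by rw [hcard]; exact hr)
  rw [hcard] at h1 h2
  have h1' : Tendsto (fun n : ℕ => (pp r n : ℝ) / (n * (2 * (r : ℝ) - 3) ^ n)) atTop
      (nhds (8 * r * (r - 1) * (r - 2) / ((2 * (r : ℝ) - 3) ^ 2 * (2 * (r : ℝ) - 5)))) := by
    refine h1.congr' ?_
    filter_upwards [eventually_ne_atTop 0] with n hn
    rw [UU_C1 r hn]
  refine ⟨h1', ?_⟩
  set τ : ℝ := 8 * r * (r - 1) * (r - 2) / ((2 * (r : ℝ) - 3) ^ 2 * (2 * (r : ℝ) - 5)) with hτ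
  have hτ0 : τ ≠ 0 := by
    have h3 : 0 < (r : ℝ) - 1 := by linarith
    have h4 : 0 < (r : ℝ) - 2 := by linarith
    have h5 : 0 < 2 * (r : ℝ) - 3 := by linarith
    have h6 : 0 < 2 * (r : ℝ) - 5 := by linarith
    rw [hτ]
    positivity
  have h3 := h2.div h1' hτ0
  rw [div_self hτ0] at h3
  refine h3.congr' ?_
  filter_upwards [eventually_ne_atTop 0] with n hn
  rw [Pi.div_apply, UU_C2 hPRI]
  have h5 : (2 * (r : ℝ) - 3) ≠ 0 := by
    have : 0 < 2 * (r : ℝ) - 3 := by linarith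
    exact this.ne'
  have hn' : (n : ℝ) ≠ 0 := by exact_mod_cast hn
  have h6 : (n : ℝ) * (2 * (r : ℝ) - 3) ^ n ≠ 0 := mul_ne_zero hn' (pow_ne_zero _ h5)
  rw [div_div_div_cancel_right₀ h6]

end Pool.Agent.Helper86.AP
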