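import Mathlib
import Pool.Agent.Helper86.AP.Goals

/-!
Project AP, packet NUM.
-/

set_option autoImplicit false

namespace Pool.Agent.Helper86.AP

open Pool.Agent.Helper35.PX

theorem tNUM : S_NUM := by
  intro α _ hr
  have hR : (100 : ℝ) ≤ Fintype.card α := by exact_mod_cast hr
  unfold z0
  generalize (Fintype.card α : ℝ) = R at hR
  have hq : 0 < 2 * R - 3 := by linarith
  have e : 2 * (1 / (2 * R - 3)) ^ 2 * (2 - 1 / (2 * R - 3)) / (1 - 1 / (2 * R - 3)) ^ 2 *
      (70 * R) = 140 * R * (4 * R - 7) / ((2 * R - 3) * (2 * R - 4) ^ 2) := by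
    have h1 : 1 - 1 / (2 * R - 3) = (2 * R - 4) / (2 * R - 3) := by
      field_simp
      ring
    have h2 : 2 - 1 / (2 * R - 3) = (4 * R - 7) / (2 * R - 3) := by
      field_simp
      ring
    have h3 : 2 * R - 4 ≠ 0 := by
      have : 0 < 2 * R - 4 := by linarith
      exact this.ne'
    rw [h1, h2]
    generalize h4 : 2 * R - 4 = y at h3
    generalize h5 : 2 * R - 3 = x at hq
    field_simp
    ring
  rw [e, div_lt_one]
  · nlinarith [mul_nonneg (sub_nonneg.2 hR) (sub_nonneg.2 hR),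
      mul_nonneg (mul_nonneg (sub_nonneg.2 hR) (sub_nonneg.2 hR)) (sub_nonneg.2 hR)]
  · have : 0 < 2 * R - 4 := by linarith
    positivity

end Pool.Agent.Helper86.AP
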