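import Mathlib
import Pool.Agent.Helper35.PX.Rate
import Pool.Agent.Helper89.PX.BCC

set_option autoImplicit false

namespace Pool.Agent.Results.MP_bec853_al.GrowthRate

/-- `u` is positive: in its reduced word no generator appears with a negative exponent. -/
def IsPositive {r : ℕ} (u : FreeGroup (Fin r)) : Prop := ∀ x ∈ u.toWord, x.2 = true

/-- `u` is potentially positive: some automorphism of the free group maps it to a positive
element. -/
def PotentiallyPositive {r : ℕ} (u : FreeGroup (Fin r)) : Prop :=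
  ∃ f : FreeGroup (Fin r) ≃* FreeGroup (Fin r), IsPositive (f u)

/-- the number of potentially positive elements of length `n` -/
noncomputable def p (r n : ℕ) : ℕ :=
  {u : FreeGroup (Fin r) | u.norm = n ∧ PotentiallyPositive u}.ncard

/-- the exponential growth rate `limsup p_r(n)^(1/n)` -/
noncomputable def growth (r : ℕ) : ℝ :=
  Filter.limsup (fun n : ℕ => (p r n : ℝ) ^ ((1 : ℝ) / n)) Filter.atTop

lemma p_eq (r n : ℕ) : p r n = Pool.Agent.Helper35.PX.pp r n := rfl

/-- For every `r ≥ 100` the growth rate of potentially positive elements is exactly `2r - 3`, it is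
attained as a limit, and `(2r - 3)^n ≤ p_r(n + 1)` and `p_r(n) ≤ C (2r - 3 + ε)^n` for all `n`. -/
theorem result (r : ℕ) (hr : 100 ≤ r) :
    growth r = 2 * r - 3 ∧
      Filter.Tendsto (fun n : ℕ => (p r n : ℝ) ^ ((1 : ℝ) / n)) Filter.atTop
        (nhds (2 * r - 3)) ∧
      (∀ n : ℕ, (2 * (r : ℝ) - 3) ^ n ≤ p r (n + 1)) ∧
      ∀ ε : ℝ, 0 < ε → ∃ C : ℝ, ∀ n : ℕ, (p r n : ℝ) ≤ C * (2 * r - 3 + ε) ^ n := by
  have h := Pool.Agent.Helper35.PX.tendsto_pp Pool.Agent.Helper89.PX.stmtBCC hr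
  refine ⟨h.limsup_eq, h, ?_, ?_⟩
  · intro n
    exact Pool.Agent.Helper35.PX.pp_ge (by omega) n
  · intro ε hε
    obtain ⟨C, -, hC⟩ := Pool.Agent.Helper35.PX.pp_le Pool.Agent.Helper89.PX.stmtBCC hr
      (L := 2 * (r : ℝ) - 3 + ε) (by linarith)
    exact ⟨C, hC⟩

end Pool.Agent.Results.MP_bec853_al.GrowthRate
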